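import Mathlib
import Pool.Agent.J4H26.CC.S

set_option autoImplicit false

/-! Unmerged pairs at a low level are rare; the expected level, uniformly in the start. -/

namespace Pool.Agent.J4H26.AF

open Finset Filter Topology
open Pool.Agent.H499R2.CO (q step P V V_nonneg pw pw_nonneg P_pw w Vp_le Vp Vp_nonneg q_le_one q_nonneg)
open Pool.Agent.J4H39 (Erf Erf_mono Erf_nonneg Erf_le_one)
open Pool.Agent.J4H26.CC

theorem Erf_near {u v d : ℝ} (hu : 0 ≤ u) (huv : u ≤ v) (hd : v ^ 2 ≤ (1 + d) * u ^ 2) (hd0 : 0 ≤ d) :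
    Erf v ≤ Erf u + 2 * d := by
  have hc : Continuous fun w : ℝ => Real.exp (-w ^ 2) := by fun_prop
  have hint : ∀ p q : ℝ, IntervalIntegrable (fun w : ℝ => Real.exp (-w ^ 2)) MeasureTheory.volume p q :=
    fun p q => hc.intervalIntegrable p q
  have h1 : (∫ w in (0 : ℝ)..v, Real.exp (-w ^ 2)) =
      (∫ w in (0 : ℝ)..u, Real.exp (-w ^ 2)) + ∫ w in u..v, Real.exp (-w ^ 2) :=
    (intervalIntegral.integral_add_adjacent_intervals (hint _ _) (hint _ _)).symm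
  have h2 : (∫ w in u..v, Real.exp (-w ^ 2)) ≤ ∫ w in u..v, Real.exp (-u ^ 2) := by
    apply intervalIntegral.integral_mono_on huv (hint _ _) (by simp)
    intro w hw
    apply Real.exp_le_exp.2
    have : u ^ 2 ≤ w ^ 2 := by
      have := hw.1
      gcongr
    linarith
  rw [intervalIntegral.integral_const, smul_eq_mul] at h2
  have h3 : (v - u) * Real.exp (-u ^ 2) ≤ d := by
    rcases hu.eq_or_lt with h0 | h0
    · subst h0
      have : v ^ 2 ≤ 0 := by simpa using hd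
      have hv : v = 0 := by nlinarith [sq_nonneg v]
      rw [hv]; simpa using hd0
    · have hvu : v - u ≤ d * u := by
        by_contra hcon
        push Not at hcon
        have : (u + d * u) ^ 2 < v ^ 2 := by
          apply pow_lt_pow_left₀ (by linarith) (by positivity) (by norm_num)
        nlinarith [mul_nonneg hd0 (sq_nonneg u), mul_nonneg (mul_nonneg hd0 hd0) (sq_nonneg u)]
      have he : u * Real.exp (-u ^ 2) ≤ 1 := by
        rw [Real.exp_neg, ← div_eq_mul_inv, div_le_one (Real.exp_pos _)]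
        have := Real.add_one_le_exp (u ^ 2)
        nlinarith [sq_nonneg (u - 1)]
      calc (v - u) * Real.exp (-u ^ 2) ≤ (d * u) * Real.exp (-u ^ 2) := by gcongr
        _ = d * (u * Real.exp (-u ^ 2)) := by ring
        _ ≤ d * 1 := by gcongr
        _ = d := mul_one d
  have h4 : 2 / √ Real.pi ≤ 2 := pi_bd.1
  have h5 : (∫ w in u..v, Real.exp (-w ^ 2)) ≤ d := h2.trans h3
  have h6 : 0 ≤ (∫ w in u..v, Real.exp (-w ^ 2)) :=
    intervalIntegral.integral_nonneg huv fun w _ => (Real.exp_pos _).le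
  unfold Erf
  rw [h1, mul_add]
  have h7 : 2 / √ Real.pi * (∫ w in u..v, Real.exp (-w ^ 2)) ≤ 2 * d :=
    mul_le_mul h4 h5 h6 (by norm_num)
  linarith

open Classical in
/-- unmerged and at a low level -/
noncomputable def lowi (β : ℝ) (t : ℕ) (x : ℕ × ℤ) : ℝ := if x ≠ (0, 0) ∧ (x.1 : ℝ) ≤ β * √ (t : ℝ) then 1 else 0

theorem q0 (x : ℕ × ℤ) : q step (0, 0) 0 x = if x ≠ (0, 0) then 1 else 0 := by
  by_cases h : x = (0, 0)
  · rw [if_neg (by simpa using h), h]; exact Pool.Agent.H499R2.CO.q_o step (0, 0) 0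
  · rw [if_pos h]; exact Pool.Agent.H499R2.CO.q_zero_ne step (0, 0) h

theorem pw_low {i : ℕ} {r : ℤ} {n : ℕ} (h : (4 : ℝ) ^ n ≤ |(r : ℝ)|) : (2 : ℝ) ^ n ≤ 2 ^ i * pw (i, r) := by
  have e1 : √ ((4 : ℝ) ^ n) ≤ w r := Real.sqrt_le_sqrt h
  have hsq : √ ((4 : ℝ) ^ n) = 2 ^ n := by
    rw [show (4 : ℝ) = 2 ^ 2 by norm_num, ← pow_mul, mul_comm, pow_mul, Real.sqrt_sq (by positivity)]
  rw [hsq] at e1
  unfold pw
  simp only
  rw [← mul_assoc, ← mul_pow]
  have h2 : (1 : ℝ) ≤ (2 * (11 / 20)) ^ i := one_le_pow₀ (by norm_num)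
  have h3 : (0 : ℝ) ≤ w r := Real.sqrt_nonneg _
  nlinarith

theorem pw_up {i : ℕ} {r : ℤ} {n : ℕ} (h : |(r : ℝ)| ≤ (4 : ℝ) ^ n) : pw (i, r) ≤ 2 ^ n := by
  have e1 : w r ≤ √ ((4 : ℝ) ^ n) := Real.sqrt_le_sqrt h
  have hsq : √ ((4 : ℝ) ^ n) = 2 ^ n := by
    rw [show (4 : ℝ) = 2 ^ 2 by norm_num, ← pow_mul, mul_comm, pow_mul, Real.sqrt_sq (by positivity)]
  rw [hsq] at e1
  unfold pw
  simp only
  have h2 : (11 / 20 : ℝ) ^ i ≤ 1 := pow_le_one₀ (by norm_num) (by norm_num)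
  have h3 : (0 : ℝ) ≤ w r := Real.sqrt_nonneg _
  have h4 : (0 : ℝ) ≤ (11 / 20 : ℝ) ^ i := by positivity
  nlinarith

theorem two_pow_le {n : ℕ} {x : ℝ} (h : (n : ℝ) ≤ x) : (2 : ℝ) ^ n ≤ (2 : ℝ) ^ x := by
  rw [← Real.rpow_natCast]
  exact Real.rpow_le_rpow_of_exponent_le (by norm_num) h

/-- the contraction of `pw` -/
theorem it_pw' (n : ℕ) : ∀ s : ℕ × ℤ, it n pw s ≤ (49 / 50) ^ n * pw s + 75 / 2 := by
  have key : ∀ n : ℕ, ∀ s : ℕ × ℤ, it n pw s ≤ (49 / 50) ^ n * pw s + 75 / 2 * (1 - (49 / 50) ^ n) := by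
    intro n
    induction n with
    | zero => intro s; show pw s ≤ _; simp
    | succ n ih =>
      intro s
      show P (it n pw) s ≤ _
      have h1 : P (it n pw) s ≤ (49 / 50) ^ n * P pw s + 75 / 2 * (1 - (49 / 50) ^ n) := by
        unfold P
        have := ih (step s false); have := ih (step s true); linarith
      have h2 := P_pw s
      have h3 : (0 : ℝ) < (49 / 50) ^ n := by positivity
      have h4 := mul_le_mul_of_nonneg_left h2 h3.le
      rw [pow_succ]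
      linarith
  intro s
  refine (key n s).trans ?_
  have h3 : (0 : ℝ) < (49 / 50) ^ n := by positivity
  linarith

/-- unmerged pairs at a low level are rare -/
theorem low_small {η κ : ℝ} (hη : 0 < η) (hκ : 0 < κ) : ∃ β : ℝ, 0 < β ∧ ∃ c : ℝ, 0 < c ∧ ∀ᶠ t : ℕ in atTop, ∀ n : ℕ,
    η * t ≤ n → ∀ (i : ℕ) (r : ℤ), (i : ℝ) ≤ c * t → |(r : ℝ)| ≤ 4 ^ ⌊c * t⌋₊ → it n (lowi β t) (i, r) ≤ κ := by
  obtain ⟨β₁, hβ₁d⟩ : ∃ β₁ : ℝ, β₁ = η * κ / 16 := ⟨_, rfl⟩
  have hβ₁ : 0 < β₁ := by rw [hβ₁d]; positivity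
  obtain ⟨c₁, hc₁, hl1⟩ := law_t (κ := β₁ / 2) (ε := 1 / 8) (by positivity) (by norm_num)
  obtain ⟨c₂, hc₂, hl2⟩ := law_t (κ := η) (ε := κ / 16) hη (by positivity)
  obtain ⟨β, hβd⟩ : ∃ β : ℝ, β = √ β₁ / 8 := ⟨_, rfl⟩
  have hsβ : 0 < √ β₁ := Real.sqrt_pos.2 hβ₁
  have hβ : 0 < β := by rw [hβd]; positivity
  obtain ⟨c, hcd⟩ : ∃ c : ℝ, c = min c₂ (c₁ / 8) := ⟨_, rfl⟩
  have hc : 0 < c := by rw [hcd]; positivity
  have hcc2 : c ≤ c₂ := by rw [hcd]; exact min_le_left _ _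
  have hcc1 : c ≤ c₁ / 8 := by rw [hcd]; exact min_le_right _ _
  have hlim : Tendsto (fun t : ℕ => (2 : ℝ) ^ (-(c₁ / 8 * (t : ℝ)))) atTop (𝓝 0) := by
    have h1 : Tendsto (fun t : ℕ => c₁ / 8 * (t : ℝ)) atTop atTop := tendsto_natCast_atTop_atTop.const_mul_atTop (by positivity)
    have h2 : Tendsto (fun x : ℝ => (2 : ℝ) ^ (-x)) atTop (𝓝 0) := by
      have h3 := tendsto_rpow_neg_atTop (y := 1) one_pos
      have h4 : (fun x : ℝ => (2 : ℝ) ^ (-x)) = fun x => Real.exp (-(Real.log 2 * x)) := by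
        funext x; rw [Real.rpow_def_of_pos (by norm_num)]; congr 1; ring
      rw [h4]
      exact Real.tendsto_exp_neg_atTop_nhds_zero.comp (tendsto_id.const_mul_atTop (Real.log_pos (by norm_num)))
    exact h2.comp h1
  refine ⟨β, hβ, c, hc, ?_⟩
  filter_upwards [hl1, hl2, sqrt_small (A := β) (B := 2) (c := c₁ / 4) (by positivity),
    (tendsto_natCast_atTop_atTop (R := ℝ)).eventually_ge_atTop (2 / β₁), eventually_ge_atTop 1,
    hlim.eventually (Iic_mem_nhds (show (0 : ℝ) < κ / 200 by positivity))] with t a1 a2 a3 a4 a5 a6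
  intro n hn i r hi hr
  have ht : (1 : ℝ) ≤ t := by exact_mod_cast a5
  have ht0 : (0 : ℝ) < t := by linarith
  obtain ⟨b, hb⟩ : ∃ b : ℕ, b = ⌊β₁ * t⌋₊ := ⟨_, rfl⟩
  have hb1 : (b : ℝ) ≤ β₁ * t := by rw [hb]; exact Nat.floor_le (by positivity)
  have hb2 : β₁ / 2 * t ≤ b := by
    have h1 := Nat.lt_floor_add_one (β₁ * (t : ℝ))
    rw [← hb] at h1
    rw [div_le_iff₀ hβ₁] at a4
    linarith
  have hb0 : (0 : ℝ) < b := lt_of_lt_of_le (by positivity) hb2
  have hsb : (0 : ℝ) < √ (b : ℝ) := Real.sqrt_pos.2 hb0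
  have hst : (0 : ℝ) ≤ √ (t : ℝ) := Real.sqrt_nonneg _
  obtain ⟨A, hA⟩ : ∃ A : ℝ, A = (2 : ℝ) ^ (-(c₁ / 4 * (t : ℝ))) := ⟨_, rfl⟩
  have hA0 : 0 < A := by rw [hA]; positivity
  have hpt : ∀ x : ℕ × ℤ, lowi β t x ≤ (2 * q step (0, 0) 0 x + (-2) * q step (0, 0) b x) + A * pw x := by
    intro x
    have hpx : 0 ≤ A * pw x := mul_nonneg hA0.le (pw_nonneg x)
    have hq1 := q_le_one step (0, 0) b x
    have hq0 := q_nonneg step (0, 0) b x
    by_cases hx : x = (0, 0)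
    · subst hx
      have h1 : lowi β t (0, 0) = 0 := by unfold lowi; simp
      have h2 : q step (0, 0) 0 (0, 0) = 0 := by rw [q0]; simp
      have h3 := it_q 0 b (0, 0)
      have h4 : q step (0, 0) b (0, 0) = 0 := by
        have := Pool.Agent.H499R2.CO.q_o step (0, 0) b
        simpa using this
      rw [h1, h2, h4]
      linarith
    · have h2 : q step (0, 0) 0 x = 1 := by rw [q0, if_pos hx]
      rw [h2]
      unfold lowi
      by_cases hl : (x.1 : ℝ) ≤ β * √ (t : ℝ)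
      · rw [if_pos ⟨hx, hl⟩]
        by_cases hr' : |(x.2 : ℝ)| ≤ 4 ^ ⌊c₁ * (t : ℝ)⌋₊
        · have h3 := a1 b hb2 x.1 x.2 (by nlinarith) hr'
          have h4 : Erf ((x.1 : ℝ) / √ (b : ℝ)) ≤ 3 / 8 := by
            refine (Erf_up2 (by positivity)).trans ?_
            rw [← mul_div_assoc, div_le_iff₀ hsb]
            have h5 : √ (β₁ / 2) * √ (t : ℝ) ≤ √ (b : ℝ) := by
              rw [← Real.sqrt_mul (by positivity)]
              exact Real.sqrt_le_sqrt hb2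
            have h6 : (2 / 3) * √ β₁ ≤ √ (β₁ / 2) := by
              apply Real.le_sqrt_of_sq_le
              rw [mul_pow, Real.sq_sqrt hβ₁.le]
              linarith
            have h7 : 2 * (x.1 : ℝ) ≤ 2 * (√ β₁ / 8 * √ (t : ℝ)) := by rw [← hβd]; linarith
            have h8 : (2 / 3) * √ β₁ * √ (t : ℝ) ≤ √ (b : ℝ) := (mul_le_mul_of_nonneg_right h6 hst).trans h5
            nlinarith
          have h5 := (abs_le.1 h3).2
          have e : (x.1, x.2) = x := rfl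
          rw [e] at h5
          linarith
        · push Not at hr'
          have h3 := pw_low (i := x.1) hr'.le
          have e : (x.1, x.2) = x := rfl
          rw [e] at h3
          have h4 : (1 : ℝ) ≤ A * pw x := by
            have h5 := Nat.lt_floor_add_one (c₁ * (t : ℝ))
            have h6 : (2 : ℝ) ^ (c₁ * (t : ℝ) - 1) ≤ 2 ^ ⌊c₁ * (t : ℝ)⌋₊ := by
              rw [← Real.rpow_natCast 2 ⌊c₁ * (t : ℝ)⌋₊]
              exact Real.rpow_le_rpow_of_exponent_le (by norm_num) (by linarith)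
            have h7 : (2 : ℝ) ^ x.1 ≤ (2 : ℝ) ^ (c₁ / 4 * (t : ℝ) - 2) := two_pow_le (by linarith)
            have h8 : (2 : ℝ) ^ (c₁ * (t : ℝ) - 1) ≤ (2 : ℝ) ^ (c₁ / 4 * (t : ℝ) - 2) * pw x :=
              h6.trans (h3.trans (mul_le_mul_of_nonneg_right h7 (pw_nonneg x)))
            have h9 : (2 : ℝ) ^ (c₁ * (t : ℝ) - 1) = (2 : ℝ) ^ (c₁ / 4 * (t : ℝ) - 2) * 2 ^ (3 * c₁ / 4 * (t : ℝ) + 1) := by
              rw [← Real.rpow_add (by norm_num)]; congr 1; ring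
            rw [h9] at h8
            have h10 : (2 : ℝ) ^ (3 * c₁ / 4 * (t : ℝ) + 1) ≤ pw x := le_of_mul_le_mul_left h8 (by positivity)
            have h11 : A * (2 : ℝ) ^ (3 * c₁ / 4 * (t : ℝ) + 1) ≤ A * pw x := mul_le_mul_of_nonneg_left h10 hA0.le
            refine le_trans ?_ h11
            rw [hA, ← Real.rpow_add (by norm_num)]
            apply Real.one_le_rpow (by norm_num)
            have : 0 ≤ c₁ * (t : ℝ) := by positivity
            linarith
          linarith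
      · rw [if_neg (fun h => hl h.2)]
        linarith
  have h1 := it_mono n hpt (i, r)
  rw [it_add_fun, it_add_fun, it_mul, it_mul, it_mul, it_q, it_q, Nat.add_zero] at h1
  have hct : c * (t : ℝ) ≤ c₂ * t := mul_le_mul_of_nonneg_right hcc2 ht0.le
  have hr2 : |(r : ℝ)| ≤ 4 ^ ⌊c₂ * (t : ℝ)⌋₊ := hr.trans (pow_le_pow_right₀ (by norm_num) (Nat.floor_le_floor hct))
  have h2 := a2 n hn i r (hi.trans hct) hr2
  have h3 := a2 (n + b) (by push_cast; linarith) i r (hi.trans hct) hr2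
  have hn0 : (0 : ℝ) < n := lt_of_lt_of_le (by positivity) hn
  have h4 : Erf ((i : ℝ) / √ (n : ℝ)) ≤ Erf ((i : ℝ) / √ ((n + b : ℕ) : ℝ)) + 2 * (β₁ / η) := by
    apply Erf_near (by positivity)
    · apply div_le_div_of_nonneg_left (by positivity) (Real.sqrt_pos.2 hn0)
      apply Real.sqrt_le_sqrt
      push_cast; linarith
    · rw [div_pow, div_pow, Real.sq_sqrt hn0.le, Real.sq_sqrt (by positivity)]
      push_cast
      rw [← mul_div_assoc, div_le_div_iff₀ hn0 (by positivity)]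
      have h5 : (b : ℝ) ≤ β₁ / η * n := by
        rw [div_mul_eq_mul_div, le_div_iff₀ hη]
        calc (b : ℝ) * η ≤ (β₁ * t) * η := by gcongr
          _ = β₁ * (η * t) := by ring
          _ ≤ β₁ * n := by gcongr
      have h6 : 0 ≤ (i : ℝ) ^ 2 := sq_nonneg _
      nlinarith
    · positivity
  have h5 : β₁ / η = κ / 16 := by rw [hβ₁d]; field_simp
  rw [h5] at h4
  have h6 := (abs_le.1 h2).2
  have h7 := (abs_le.1 h3).1
  have h8 : A * it n pw (i, r) ≤ κ / 4 := by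
    have b1 := it_pw n (i, r)
    have b2 := pw_up (i := i) hr
    have b3 : (2 : ℝ) ^ ⌊c * (t : ℝ)⌋₊ ≤ (2 : ℝ) ^ (c₁ / 8 * (t : ℝ)) := by
      apply two_pow_le
      exact (Nat.floor_le (by positivity)).trans (mul_le_mul_of_nonneg_right hcc1 ht0.le)
    have b4 : (1 : ℝ) ≤ (2 : ℝ) ^ (c₁ / 8 * (t : ℝ)) := Real.one_le_rpow (by norm_num) (by positivity)
    have b5 : A * it n pw (i, r) ≤ A * (39 * (2 : ℝ) ^ (c₁ / 8 * (t : ℝ))) :=
      mul_le_mul_of_nonneg_left (by linarith) hA0.le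
    refine b5.trans ?_
    have b6 : A * (39 * (2 : ℝ) ^ (c₁ / 8 * (t : ℝ))) = 39 * (2 : ℝ) ^ (-(c₁ / 8 * (t : ℝ))) := by
      rw [hA]
      have : (2 : ℝ) ^ (-(c₁ / 8 * (t : ℝ))) = (2 : ℝ) ^ (-(c₁ / 4 * (t : ℝ))) * 2 ^ (c₁ / 8 * (t : ℝ)) := by
        rw [← Real.rpow_add (by norm_num)]; congr 1; ring
      rw [this]; ring
    rw [b6]
    have b7 : (2 : ℝ) ^ (-(c₁ / 8 * (t : ℝ))) ≤ κ / 200 := a6
    linarith
  linarith

/-- the expected level -/
theorem al_up : ∃ K : ℝ, 0 ≤ K ∧ ∀ (n s₀ i : ℕ) (r : ℤ), s₀ ≤ n → al n (i, r) ≤ i + √ (s₀ : ℝ) + (49 / 50) ^ s₀ * pw (i, r) + K := by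
  obtain ⟨K, hK, hb⟩ := al_bound
  refine ⟨K + 480048 + 75 / 2, by positivity, fun n s₀ i r hs => ?_⟩
  obtain ⟨d, rfl⟩ := Nat.exists_eq_add_of_le hs
  have h1 : al (s₀ + d) (i, r) = it s₀ (al d) (i, r) := by
    rw [← it_al, it_comp, it_al]
  have h2 : ∀ x : ℕ × ℤ, al d x ≤ ((x.1 : ℝ) + pw x) + (K + 480048) := by
    intro x
    have := hb d x
    have h3 := Vp_le x
    unfold V at this
    linarith
  have h3 := it_mono s₀ h2 (i, r)
  rw [it_add_fun, it_add_fun] at h3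
  have h4 : it s₀ (fun _ => K + 480048) (i, r) = K + 480048 := by
    have : ∀ (n : ℕ) (s : ℕ × ℤ), it n (fun _ => K + 480048) s = K + 480048 := by
      intro n
      induction n with
      | zero => intro s; rfl
      | succ n ih => intro s; show P _ s = _; unfold P; rw [ih, ih]; ring
    exact this _ _
  rw [h4] at h3
  have h5 := it_pw' s₀ (i, r)
  have h6 : it s₀ (fun x => (x.1 : ℝ)) (i, r) ≤ i + √ (s₀ : ℝ) := by
    rcases Nat.eq_zero_or_pos s₀ with h0 | h0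
    · subst h0; show ((i : ℝ)) ≤ _; simp
    · obtain ⟨L, hL⟩ : ∃ L : ℝ, L = √ ((i : ℝ) ^ 2 + s₀) := ⟨_, rfl⟩
      have hs0 : (0 : ℝ) < s₀ := by exact_mod_cast h0
      have hL0 : 0 < L := by rw [hL]; exact Real.sqrt_pos.2 (by positivity)
      have hL2 : L ^ 2 = (i : ℝ) ^ 2 + s₀ := by rw [hL]; exact Real.sq_sqrt (by positivity)
      have h7 : ∀ x : ℕ × ℤ, (x.1 : ℝ) ≤ 1 / (2 * L) * (x.1 : ℝ) ^ 2 + L / 2 := by
        intro x
        have : (x.1 : ℝ) = 1 / (2 * L) * (2 * L * x.1) := by field_simp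
        have h8 : 1 / (2 * L) * (x.1 : ℝ) ^ 2 + L / 2 = 1 / (2 * L) * ((x.1 : ℝ) ^ 2 + L ^ 2) := by field_simp
        rw [h8]
        conv_lhs => rw [this]
        apply mul_le_mul_of_nonneg_left _ (by positivity)
        nlinarith [sq_nonneg ((x.1 : ℝ) - L)]
      have h8 := it_mono s₀ h7 (i, r)
      rw [it_add_fun, it_mul] at h8
      have h9 : it s₀ (fun _ => L / 2) (i, r) = L / 2 := by
        have : ∀ (n : ℕ) (s : ℕ × ℤ), it n (fun _ => L / 2) s = L / 2 := by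
          intro n
          induction n with
          | zero => intro s; rfl
          | succ n ih => intro s; show P _ s = _; unfold P; rw [ih, ih]; ring
        exact this _ _
      rw [h9] at h8
      have h10 := it_sq s₀ (i, r)
      simp only at h10
      rw [← hL2] at h10
      have h11 : 1 / (2 * L) * it s₀ (fun x => (x.1 : ℝ) ^ 2) (i, r) ≤ 1 / (2 * L) * L ^ 2 :=
        mul_le_mul_of_nonneg_left h10 (by positivity)
      have h12 : 1 / (2 * L) * L ^ 2 = L / 2 := by field_simp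
      have h13 : L ≤ i + √ (s₀ : ℝ) := by
        rw [hL, Real.sqrt_le_left (by positivity)]
        have : √ (s₀ : ℝ) ^ 2 = s₀ := Real.sq_sqrt (by positivity)
        have h14 : 0 ≤ (i : ℝ) * √ (s₀ : ℝ) := by positivity
        nlinarith
      linarith
  have e7 : it s₀ pw (i, r) = it s₀ (fun x => pw x) (i, r) := rfl
  rw [e7] at h5
  rw [h1]
  linarith

end Pool.Agent.J4H26.AF
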