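import Mathlib

set_option autoImplicit false

/-! The binomial distribution with parameter one half: bounds for its distribution function, for the probabilities and
for their differences. -/

namespace Pool.Agent.J4H26.AF

open Finset

/-- distribution function of the number of successes in `s` fair trials -/
noncomputable def Fb : ℕ → ℤ → ℝ
  | 0, d => if 0 ≤ d then 1 else 0
  | s + 1, d => (Fb s d + Fb s (d - 1)) / 2

/-- probability of `d` successes in `s` fair trials -/
noncomputable def pm : ℕ → ℤ → ℝ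
  | 0, d => if d = 0 then 1 else 0
  | s + 1, d => (pm s d + pm s (d - 1)) / 2

theorem Fb_zero (d : ℤ) : Fb 0 d = if 0 ≤ d then 1 else 0 := rfl
theorem Fb_succ (s : ℕ) (d : ℤ) : Fb (s + 1) d = (Fb s d + Fb s (d - 1)) / 2 := rfl
theorem pm_zero (d : ℤ) : pm 0 d = if d = 0 then 1 else 0 := rfl
theorem pm_succ (s : ℕ) (d : ℤ) : pm (s + 1) d = (pm s d + pm s (d - 1)) / 2 := rfl

theorem Fb_diff (s : ℕ) : ∀ d : ℤ, Fb s d - Fb s (d - 1) = pm s d := by
  induction s with
  | zero =>
    intro d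
    rw [Fb_zero, Fb_zero, pm_zero]
    split_ifs <;> first | omega | norm_num
  | succ s ih =>
    intro d
    rw [Fb_succ, Fb_succ, pm_succ]
    have h1 := ih d
    have h2 := ih (d - 1)
    linarith

theorem pm_nonneg (s : ℕ) : ∀ d : ℤ, 0 ≤ pm s d := by
  induction s with
  | zero => intro d; rw [pm_zero]; split_ifs <;> norm_num
  | succ s ih => intro d; rw [pm_succ]; have := ih d; have := ih (d - 1); linarith

theorem Fb_mem (s : ℕ) : ∀ d : ℤ, 0 ≤ Fb s d ∧ Fb s d ≤ 1 := by
  induction s with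
  | zero => intro d; rw [Fb_zero]; split_ifs <;> norm_num
  | succ s ih =>
    intro d; rw [Fb_succ]
    obtain ⟨h1, h2⟩ := ih d
    obtain ⟨h3, h4⟩ := ih (d - 1)
    constructor <;> linarith

theorem pm_neg (s : ℕ) : ∀ d : ℤ, d < 0 → pm s d = 0 := by
  induction s with
  | zero => intro d hd; rw [pm_zero, if_neg (by omega)]
  | succ s ih => intro d hd; rw [pm_succ, ih d hd, ih (d - 1) (by omega)]; norm_num

theorem pm_gt (s : ℕ) : ∀ d : ℤ, (s : ℤ) < d → pm s d = 0 := by
  induction s with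
  | zero => intro d hd; rw [pm_zero, if_neg (by push_cast at hd; omega)]
  | succ s ih => intro d hd; push_cast at hd; rw [pm_succ, ih d (by omega), ih (d - 1) (by omega)]; norm_num

theorem pm_symm (s : ℕ) : ∀ d : ℤ, pm s (s - d) = pm s d := by
  induction s with
  | zero =>
    intro d; rw [pm_zero, pm_zero]; push_cast
    by_cases h : d = 0
    · rw [if_pos (by omega), if_pos h]
    · rw [if_neg (by omega), if_neg h]
  | succ s ih =>
    intro d
    rw [pm_succ, pm_succ]
    have h1 := ih d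
    have h2 := ih (d - 1)
    push_cast
    rw [show (s : ℤ) + 1 - d = s - (d - 1) by ring, show (s : ℤ) - (d - 1) - 1 = s - d by ring, h1, h2]
    ring

theorem pm_incr (s : ℕ) : ∀ e : ℤ, 2 * e ≤ s + 1 → pm s (e - 1) ≤ pm s e := by
  induction s with
  | zero =>
    intro e he
    rw [pm_neg 0 (e - 1) (by push_cast at he; omega)]
    exact pm_nonneg 0 e
  | succ s ih =>
    intro e he
    push_cast at he
    rw [pm_succ, pm_succ]
    have h1 : pm s (e - 1 - 1) ≤ pm s e := by
      rcases (show 2 * e ≤ s + 1 ∨ 2 * e = s + 2 by omega) with h | h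
      · exact (ih (e - 1) (by omega)).trans (ih e h)
      · have h2 := pm_symm s e
        rw [show (s : ℤ) - e = e - 1 - 1 by omega] at h2
        rw [h2]
    linarith

/-- the representation by the probabilities -/
theorem rep {G : ℕ → ℤ → ℝ} (hG : ∀ n d, G (n + 1) d = (G n d + G n (d - 1)) / 2) (s : ℕ) : ∀ (n : ℕ) (d : ℤ),
    G (n + s) d = ∑ l ∈ range (s + 1), pm s l * G n (d - l) := by
  induction s with
  | zero => intro n d; simp [pm_zero]
  | succ s ih =>
    intro n d
    rw [← add_assoc, hG, ih, ih]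
    rw [sum_congr rfl (fun (l : ℕ) _ => show pm (s + 1) l * G n (d - l) =
      pm s l * G n (d - l) / 2 + pm s (l - 1) * G n (d - l) / 2 by rw [pm_succ]; ring), sum_add_distrib]
    have e1 : ∑ l ∈ range (s + 1 + 1), pm s (l : ℕ) * G n (d - l) / 2 = ∑ l ∈ range (s + 1), pm s (l : ℕ) * G n (d - l) / 2 := by
      rw [sum_range_succ, pm_gt s ((s + 1 : ℕ) : ℤ) (by push_cast; omega)]
      ring
    have e2 : ∑ l ∈ range (s + 1 + 1), pm s ((l : ℕ) - 1) * G n (d - l) / 2 =
        ∑ l ∈ range (s + 1), pm s (l : ℕ) * G n (d - 1 - l) / 2 := by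
      rw [sum_range_succ', pm_neg s (((0 : ℕ) : ℤ) - 1) (by norm_num), zero_mul, zero_div, add_zero]
      apply sum_congr rfl
      intro l _
      push_cast
      rw [show (l : ℤ) + 1 - 1 = l by ring, show d - ((l : ℤ) + 1) = d - 1 - l by ring]
    rw [e1, e2, add_div, sum_div, sum_div]

theorem pm_rep (s n : ℕ) (d : ℤ) : pm (n + s) d = ∑ l ∈ range (s + 1), pm s l * pm n (d - l) :=
  rep (G := pm) (fun _ _ => rfl) s n d

theorem pm_sum (s : ℕ) : ∑ l ∈ range (s + 1), pm s (l : ℕ) = 1 := by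
  have := rep (G := fun _ _ => (1 : ℝ)) (fun _ _ => by norm_num) s 0 0
  simpa using this.symm

theorem pm_var (s : ℕ) : ∑ l ∈ range (s + 1), pm s (l : ℕ) * (2 * (l : ℝ) - s) ^ 2 = (s : ℝ) := by
  have := rep (G := fun n d => (2 * (d : ℝ) - n + s) ^ 2 + n) (fun n d => by push_cast; ring) s 0 0
  push_cast at this
  rw [show (2 * (0 : ℝ) - (0 + s) + s) ^ 2 + (0 + s) = s by ring] at this
  refine Eq.trans ?_ this.symm
  apply sum_congr rfl
  intro l _
  ring

theorem Fb_rep (s : ℕ) (d : ℤ) : Fb s d = ∑ l ∈ range (s + 1), pm s (l : ℕ) * (if (l : ℤ) ≤ d then 1 else 0) := by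
  have := rep (G := Fb) (fun _ _ => rfl) s 0 d
  rw [zero_add] at this
  rw [this]
  apply sum_congr rfl
  intro l _
  rw [Fb_zero]
  congr 1
  by_cases h : (l : ℤ) ≤ d
  · rw [if_pos h, if_pos (by omega)]
  · rw [if_neg h, if_neg (by omega)]

/-- Chebyshev's inequality, lower tail -/
theorem Fb_low {s : ℕ} {d : ℤ} (h : 2 * d < s) : Fb s d * (s - 2 * (d : ℝ)) ^ 2 ≤ s := by
  rw [Fb_rep, sum_mul]
  refine le_trans ?_ (le_of_eq (pm_var s))
  apply sum_le_sum
  intro l _
  have hp := pm_nonneg s (l : ℕ)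
  rw [mul_assoc]
  apply mul_le_mul_of_nonneg_left _ hp
  by_cases hl : (l : ℤ) ≤ d
  · rw [if_pos hl, one_mul]
    have h1 : (2 * (d : ℝ)) < s := by exact_mod_cast h
    have h2 : (l : ℝ) ≤ d := by exact_mod_cast hl
    nlinarith
  · rw [if_neg hl, zero_mul]; positivity

/-- Chebyshev's inequality, upper tail -/
theorem Fb_high {s : ℕ} {d : ℤ} (h : s ≤ 2 * d) : (1 - Fb s d) * (2 * (d : ℝ) - s) ^ 2 ≤ s := by
  have e : 1 - Fb s d = ∑ l ∈ range (s + 1), (pm s (l : ℕ) - pm s (l : ℕ) * (if (l : ℤ) ≤ d then 1 else 0)) := by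
    rw [sum_sub_distrib, pm_sum, Fb_rep]
  rw [e, sum_mul]
  refine le_trans ?_ (le_of_eq (pm_var s))
  apply sum_le_sum
  intro l _
  have hp := pm_nonneg s (l : ℕ)
  by_cases hl : (l : ℤ) ≤ d
  · rw [if_pos hl, mul_one, sub_self, zero_mul]; positivity
  · rw [if_neg hl, mul_zero, sub_zero]
    apply mul_le_mul_of_nonneg_left _ hp
    have h1 : (s : ℝ) ≤ 2 * d := by exact_mod_cast h
    have h2 : (d : ℝ) ≤ l := by exact_mod_cast (by omega : d ≤ l)
    nlinarith

theorem cb_bound (n : ℕ) : ((Nat.centralBinom n : ℝ) / 4 ^ n) ^ 2 * (2 * n + 1) ≤ 1 := by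
  induction n with
  | zero => simp
  | succ n ih =>
    have h := Nat.succ_mul_centralBinom_succ n
    have hr : ((n : ℝ) + 1) * (Nat.centralBinom (n + 1) : ℝ) = 2 * (2 * n + 1) * Nat.centralBinom n := by exact_mod_cast h
    have e : (Nat.centralBinom (n + 1) : ℝ) / 4 ^ (n + 1) = (Nat.centralBinom n : ℝ) / 4 ^ n * ((2 * n + 1) / (2 * (n + 1))) := by
      have h1 : (n : ℝ) + 1 ≠ 0 := by positivity
      rw [pow_succ]
      field_simp
      linarith
    rw [e, mul_pow]
    push_cast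
    have h2 : ((2 * (n : ℝ) + 1) / (2 * (n + 1))) ^ 2 * (2 * (n + 1) + 1) ≤ 2 * n + 1 := by
      rw [div_pow, div_mul_eq_mul_div, div_le_iff₀ (by positivity)]
      nlinarith
    have h3 : 0 ≤ ((Nat.centralBinom n : ℝ) / 4 ^ n) ^ 2 := sq_nonneg _
    calc ((Nat.centralBinom n : ℝ) / 4 ^ n) ^ 2 * ((2 * (n : ℝ) + 1) / (2 * (n + 1))) ^ 2 * (2 * (n + 1) + 1) =
          ((Nat.centralBinom n : ℝ) / 4 ^ n) ^ 2 * (((2 * (n : ℝ) + 1) / (2 * (n + 1))) ^ 2 * (2 * (n + 1) + 1)) := by ring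
      _ ≤ ((Nat.centralBinom n : ℝ) / 4 ^ n) ^ 2 * (2 * n + 1) := mul_le_mul_of_nonneg_left h2 h3
      _ ≤ 1 := ih

theorem pm_eq (s : ℕ) : ∀ l : ℕ, pm s (l : ℤ) = (s.choose l : ℝ) / 2 ^ s := by
  induction s with
  | zero =>
    intro l
    rw [pm_zero]
    cases l with
    | zero => simp
    | succ l => rw [if_neg (by push_cast; omega)]; simp
  | succ s ih =>
    intro l
    rw [pm_succ]
    cases l with
    | zero =>
      rw [ih 0, pm_neg s (((0 : ℕ) : ℤ) - 1) (by norm_num)]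
      simp [pow_succ]
      ring
    | succ l =>
      rw [ih (l + 1), show (((l + 1 : ℕ) : ℤ) - 1) = (l : ℕ) by push_cast; ring, ih l, Nat.choose_succ_succ, pow_succ]
      push_cast
      field_simp
      ring

theorem pm_even (n : ℕ) (d : ℤ) : pm (2 * n) d ≤ 1 / √ (2 * (n : ℝ) + 1) := by
  have hs : 0 < √ (2 * (n : ℝ) + 1) := Real.sqrt_pos.2 (by positivity)
  rcases lt_or_ge d 0 with h | h
  · rw [pm_neg _ _ h]; positivity
  · obtain ⟨l, rfl⟩ := Int.eq_ofNat_of_zero_le h
    rw [pm_eq, pow_mul, show ((2 : ℝ) ^ 2) = 4 by norm_num]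
    have h1 : ((2 * n).choose l : ℝ) ≤ Nat.centralBinom n := by
      exact_mod_cast Nat.choose_le_centralBinom l n
    have h2 : ((2 * n).choose l : ℝ) / 4 ^ n ≤ (Nat.centralBinom n : ℝ) / 4 ^ n := by gcongr
    refine h2.trans ?_
    rw [le_div_iff₀ hs]
    apply le_of_sq_le_sq _ (by norm_num)
    rw [mul_pow, Real.sq_sqrt (by positivity), one_pow]
    exact cb_bound n

/-- the probabilities are at most `1 / √s` -/
theorem pm_le {s : ℕ} (hs : 1 ≤ s) (d : ℤ) : pm s d ≤ 1 / √ (s : ℝ) := by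
  obtain ⟨n, hn⟩ := Nat.even_or_odd' s
  rcases hn with rfl | rfl
  · refine (pm_even n d).trans ?_
    apply div_le_div_of_nonneg_left (by norm_num)
    · apply Real.sqrt_pos.2; exact_mod_cast hs
    · apply Real.sqrt_le_sqrt; push_cast; linarith
  · rw [pm_succ]
    have h1 := pm_even n d
    have h2 := pm_even n (d - 1)
    push_cast
    linarith

/-- total variation of the probabilities -/
theorem pm_tv {u : ℕ} (hu : 1 ≤ u) (n : ℕ) (d : ℤ) : ∑ l ∈ range n, |pm u (d - l) - pm u (d - l - 1)| ≤ 2 / √ (u : ℝ) := by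
  have hM : ∀ e, pm u e ≤ 1 / √ (u : ℝ) := pm_le hu
  have h0 : ∀ e, 0 ≤ pm u e := pm_nonneg u
  have e2 : 2 / √ (u : ℝ) = 2 * (1 / √ (u : ℝ)) := by ring
  set H : ℤ → ℝ := fun e => if 2 * e ≤ u then pm u e else 2 / √ (u : ℝ) - pm u e with hH
  have key : ∀ e, |pm u e - pm u (e - 1)| ≤ H e - H (e - 1) := by
    intro e
    rw [hH]
    simp only
    by_cases h1 : 2 * e ≤ u
    · rw [if_pos h1, if_pos (by omega), abs_of_nonneg (by have := pm_incr u e (by omega); linarith)]
    · rw [if_neg h1]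
      by_cases h2 : 2 * (e - 1) ≤ u
      · rw [if_pos h2, abs_le]
        have := hM e; have := hM (e - 1); have := h0 e; have := h0 (e - 1)
        constructor <;> linarith
      · rw [if_neg h2]
        have h3 := pm_incr u (u - e + 1) (by omega)
        rw [show (u : ℤ) - e + 1 - 1 = u - e by ring, pm_symm, show (u : ℤ) - e + 1 = u - (e - 1) by ring, pm_symm] at h3
        rw [abs_of_nonpos (by linarith)]
        linarith
  have hHb : ∀ e, 0 ≤ H e ∧ H e ≤ 2 / √ (u : ℝ) := by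
    intro e
    rw [hH]
    simp only
    have := hM e; have := h0 e
    split_ifs
    · constructor <;> linarith
    · constructor <;> linarith
  have tele : ∑ l ∈ range n, |pm u (d - l) - pm u (d - l - 1)| ≤ H d - H (d - n) := by
    induction n with
    | zero => simp
    | succ n ih =>
      rw [sum_range_succ]
      have := key (d - n)
      push_cast
      rw [show d - ((n : ℤ) + 1) = d - n - 1 by ring]
      linarith
  have a1 := hHb d
  have a2 := hHb (d - n)
  linarith

theorem pm_dif_two {u : ℕ} (hu : 1 ≤ u) (d : ℤ) : |pm (u + u) d - pm (u + u) (d - 1)| ≤ 2 / u := by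
  have hu0 : (0 : ℝ) < u := by exact_mod_cast hu
  rw [pm_rep, pm_rep, ← sum_sub_distrib]
  refine (abs_sum_le_sum_abs _ _).trans ?_
  calc ∑ l ∈ range (u + 1), |pm u l * pm u (d - l) - pm u l * pm u (d - 1 - l)| ≤
        ∑ l ∈ range (u + 1), 1 / √ (u : ℝ) * |pm u (d - l) - pm u (d - l - 1)| := by
        apply sum_le_sum
        intro l _
        rw [← mul_sub, abs_mul, abs_of_nonneg (pm_nonneg _ _), show d - 1 - (l : ℤ) = d - l - 1 by ring]
        exact mul_le_mul_of_nonneg_right (pm_le hu _) (abs_nonneg _)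
    _ = 1 / √ (u : ℝ) * ∑ l ∈ range (u + 1), |pm u (d - l) - pm u (d - l - 1)| := by rw [mul_sum]
    _ ≤ 1 / √ (u : ℝ) * (2 / √ (u : ℝ)) := mul_le_mul_of_nonneg_left (pm_tv hu _ _) (by positivity)
    _ = 2 / u := by
      rw [div_mul_div_comm, Real.mul_self_sqrt hu0.le]; ring

theorem pm_dif_anti {B : ℝ} {s : ℕ} (h : ∀ d : ℤ, |pm s d - pm s (d - 1)| ≤ B) (n : ℕ) :
    ∀ d : ℤ, |pm (s + n) d - pm (s + n) (d - 1)| ≤ B := by
  induction n with
  | zero => exact h
  | succ n ih =>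
    intro d
    rw [← add_assoc, pm_succ, pm_succ]
    have h1 := abs_le.1 (ih d)
    have h2 := abs_le.1 (ih (d - 1))
    rw [abs_le]
    constructor <;> linarith [h1.1, h1.2, h2.1, h2.2]

/-- the differences of the probabilities are `O (1 / s)` -/
theorem pm_dif {s : ℕ} (hs : 1 ≤ s) (d : ℤ) : |pm s d - pm s (d - 1)| ≤ 6 / s := by
  have hs0 : (0 : ℝ) < s := by exact_mod_cast hs
  rcases (show s = 1 ∨ 2 ≤ s by omega) with h | h
  · subst h
    have h1 := pm_le (s := 1) le_rfl d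
    have h2 := pm_le (s := 1) le_rfl (d - 1)
    have h3 := pm_nonneg 1 d
    have h4 := pm_nonneg 1 (d - 1)
    norm_num at h1 h2 ⊢
    rw [abs_le]
    constructor <;> linarith
  · obtain ⟨u, hu⟩ : ∃ u, u = s / 2 := ⟨_, rfl⟩
    have hu1 : 1 ≤ u := by omega
    have hu0 : (0 : ℝ) < u := by exact_mod_cast hu1
    have e : s = (u + u) + (s - (u + u)) := by omega
    have h1 := pm_dif_anti (pm_dif_two hu1) (s - (u + u)) d
    rw [← e] at h1
    refine h1.trans ?_
    rw [div_le_div_iff₀ hu0 hs0]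
    have : (s : ℝ) ≤ 3 * u := by exact_mod_cast (by omega : s ≤ 3 * u)
    linarith

end Pool.Agent.J4H26.AF
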