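import Mathlib
import Pool.Agent.J4H26.AF.Bin

set_option autoImplicit false

/-! The determinants of the coalescing walks. -/

namespace Pool.Agent.J4H26.AF

open Finset

variable {k : ℕ}

/-- a difference of products -/
theorem prod_dif {ι : Type*} [DecidableEq ι] (S : Finset ι) (a a' b : ι → ℝ) {e : ℝ} (he : 0 ≤ e)
    (h1 : ∀ i, |a i| ≤ b i) (h2 : ∀ i, |a' i| ≤ b i) (h3 : ∀ i, |a i - a' i| ≤ e * b i) :
    |∏ i ∈ S, a i - ∏ i ∈ S, a' i| ≤ #S * e * ∏ i ∈ S, b i := by
  have hb : ∀ i, 0 ≤ b i := fun i => (abs_nonneg _).trans (h1 i)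
  induction S using Finset.induction_on with
  | empty => simp
  | insert i S hi ih =>
    rw [prod_insert hi, prod_insert hi, prod_insert hi, card_insert_of_notMem hi]
    have e1 : a i * ∏ j ∈ S, a j - a' i * ∏ j ∈ S, a' j = a i * (∏ j ∈ S, a j - ∏ j ∈ S, a' j) + (a i - a' i) * ∏ j ∈ S, a' j := by ring
    rw [e1]
    refine (abs_add_le _ _).trans ?_
    rw [abs_mul, abs_mul]
    have h4 : |∏ j ∈ S, a' j| ≤ ∏ j ∈ S, b j := by
      rw [abs_prod]
      exact prod_le_prod (fun _ _ => abs_nonneg _) (fun j _ => h2 j)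
    have hB : 0 ≤ ∏ j ∈ S, b j := prod_nonneg fun j _ => hb j
    calc |a i| * |∏ j ∈ S, a j - ∏ j ∈ S, a' j| + |a i - a' i| * |∏ j ∈ S, a' j| ≤
          b i * (#S * e * ∏ j ∈ S, b j) + e * b i * ∏ j ∈ S, b j := by
          apply add_le_add
          · exact mul_le_mul (h1 i) ih (abs_nonneg _) (hb i)
          · exact mul_le_mul (h3 i) h4 (abs_nonneg _) (mul_nonneg he (hb i))
      _ = ((#S + 1 : ℕ) : ℝ) * e * (b i * ∏ j ∈ S, b j) := by push_cast; ring

theorem det_bd (M : Matrix (Fin k) (Fin k) ℝ) (b : Fin k → ℝ) (h : ∀ i j, |M i j| ≤ b i) :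
    |M.det| ≤ k.factorial * ∏ i, b i := by
  rw [Matrix.det_apply]
  refine (abs_sum_le_sum_abs _ _).trans ?_
  have h1 : ∀ σ ∈ (univ : Finset (Equiv.Perm (Fin k))), |Equiv.Perm.sign σ • ∏ i, M (σ i) i| ≤ ∏ i, b i := by
    intro σ _
    have e1 : |Equiv.Perm.sign σ • ∏ i, M (σ i) i| = |∏ i, M (σ i) i| := by
      rcases Int.units_eq_one_or (Equiv.Perm.sign σ) with h | h <;> rw [h] <;> simp
    rw [e1, abs_prod, ← Equiv.prod_comp σ b]
    exact prod_le_prod (fun _ _ => abs_nonneg _) (fun j _ => h _ _)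
  refine (sum_le_sum h1).trans (le_of_eq ?_)
  rw [sum_const, card_univ, Fintype.card_perm, Fintype.card_fin, nsmul_eq_mul]

theorem det_dif (M M' : Matrix (Fin k) (Fin k) ℝ) (b : Fin k → ℝ) {e : ℝ} (he : 0 ≤ e) (h1 : ∀ i j, |M i j| ≤ b i)
    (h2 : ∀ i j, |M' i j| ≤ b i) (h3 : ∀ i j, |M i j - M' i j| ≤ e * b i) :
    |M.det - M'.det| ≤ k.factorial * (k * e * ∏ i, b i) := by
  rw [Matrix.det_apply, Matrix.det_apply, ← sum_sub_distrib]
  refine (abs_sum_le_sum_abs _ _).trans ?_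
  have h4 : ∀ σ ∈ (univ : Finset (Equiv.Perm (Fin k))),
      |Equiv.Perm.sign σ • ∏ i, M (σ i) i - Equiv.Perm.sign σ • ∏ i, M' (σ i) i| ≤ k * e * ∏ i, b i := by
    intro σ _
    have e1 : |Equiv.Perm.sign σ • ∏ i, M (σ i) i - Equiv.Perm.sign σ • ∏ i, M' (σ i) i| =
        |∏ i, M (σ i) i - ∏ i, M' (σ i) i| := by
      rcases Int.units_eq_one_or (Equiv.Perm.sign σ) with h | h
      · rw [h]; simp
      · rw [h]; simp only [Units.neg_smul, one_smul]; rw [← abs_neg]; congr 1; ring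
    rw [e1, ← Equiv.prod_comp σ b]
    have := prod_dif univ (fun i => M (σ i) i) (fun i => M' (σ i) i) (fun i => b (σ i)) he (fun i => h1 _ _)
      (fun i => h2 _ _) (fun i => h3 _ _)
    rwa [card_univ, Fintype.card_fin] at this
  refine (sum_le_sum h4).trans (le_of_eq ?_)
  rw [sum_const, card_univ, Fintype.card_perm, Fintype.card_fin, nsmul_eq_mul]

/-- a row of the matrix -/
noncomputable def Rw (y : Fin k → ℤ) (i : Fin k) (s : ℕ) (z : ℤ) : Fin k → ℝ :=
  fun j => Fb s (y j - z) - if i < j then 1 else 0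

/-- half the difference of two rows -/
noncomputable def Vw (y : Fin k → ℤ) (s : ℕ) (z : ℤ) : Fin k → ℝ := fun j => -(pm s (y j - z) / 2)

theorem Rw_add (y : Fin k → ℤ) (i : Fin k) (s : ℕ) (z : ℤ) : Rw y i s (z + 1) = Rw y i (s + 1) z + Vw y s z := by
  funext j
  simp only [Rw, Vw, Pi.add_apply, Fb_succ]
  have h := Fb_diff s (y j - z)
  rw [show y j - (z + 1) = y j - z - 1 by ring]
  linarith

theorem Rw_sub (y : Fin k → ℤ) (i : Fin k) (s : ℕ) (z : ℤ) : Rw y i s z = Rw y i (s + 1) z - Vw y s z := by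
  funext j
  simp only [Rw, Vw, Pi.sub_apply, Fb_succ]
  have h := Fb_diff s (y j - z)
  linarith

/-- the distribution function of the coalescing walks started at `z`, after `s` steps, at `y` -/
noncomputable def Phi (y : Fin k → ℤ) (s : ℕ) (z : Fin k → ℤ) : ℝ := Matrix.det (fun i j => Rw y i s (z i) j)

/-- the mixed differences -/
noncomputable def dS (y : Fin k → ℤ) (S : Finset (Fin k)) (s : ℕ) (z : Fin k → ℤ) : ℝ :=
  Matrix.det (fun i j => if i ∈ S then Vw y s (z i) j else Rw y i (s + 1) (z i) j)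

theorem dS_empty (y : Fin k → ℤ) (s : ℕ) (z : Fin k → ℤ) : dS y ∅ s z = Phi y (s + 1) z := by
  unfold dS Phi
  simp

theorem dS_eq (y : Fin k → ℤ) (S : Finset (Fin k)) (s : ℕ) (z : Fin k → ℤ) :
    dS y S s z = Matrix.detRowAlternating (S.piecewise (fun i => Vw y s (z i)) (fun i => Rw y i (s + 1) (z i))) := by
  unfold dS
  congr 1
  funext i j
  by_cases h : i ∈ S
  · simp [h]
  · simp [h]

/-- the sign of a parity -/
def sg (p : ℕ) : ℝ := 2 * (p : ℝ) - 1

theorem Phi_expand (y : Fin k → ℤ) (s : ℕ) (z : Fin k → ℤ) (p : Fin k → ℕ) (hp : ∀ i, p i ≤ 1) :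
    Phi y s (fun i => z i + p i) = ∑ S : Finset (Fin k), (∏ i ∈ S, sg (p i)) * dS y S s z := by
  have e1 : Phi y s (fun i => z i + p i) = Matrix.detRowAlternating
      ((fun i => sg (p i) • Vw y s (z i)) + (fun i => Rw y i (s + 1) (z i))) := by
    unfold Phi
    show Matrix.det _ = Matrix.det _
    congr 1
    funext i
    simp only [Pi.add_apply]
    rcases (show p i = 0 ∨ p i = 1 by have := hp i; omega) with h | h
    · rw [h]
      simp only [Nat.cast_zero, add_zero]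
      rw [show (fun j => Rw y i s (z i) j) = Rw y i s (z i) from rfl, Rw_sub]
      unfold sg
      rw [Nat.cast_zero, mul_zero, zero_sub, neg_smul, one_smul]
      abel
    · rw [h]
      simp only [Nat.cast_one]
      rw [show (fun j => Rw y i s (z i + 1) j) = Rw y i s (z i + 1) from rfl, Rw_add]
      unfold sg
      rw [Nat.cast_one, show (2 : ℝ) * 1 - 1 = 1 by norm_num, one_smul, add_comm]
  rw [e1]
  have e2 := MultilinearMap.map_add_univ (Matrix.detRowAlternating (n := Fin k) (R := ℝ)).toMultilinearMap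
    (fun i => sg (p i) • Vw y s (z i)) (fun i => Rw y i (s + 1) (z i))
  refine e2.trans ?_
  apply sum_congr rfl
  intro S _
  rw [dS_eq]
  have e3 := MultilinearMap.map_piecewise_smul (Matrix.detRowAlternating (n := Fin k) (R := ℝ)).toMultilinearMap
    (fun i => sg (p i)) (S.piecewise (fun i => Vw y s (z i)) (fun i => Rw y i (s + 1) (z i))) S
  rw [smul_eq_mul] at e3
  refine Eq.trans ?_ e3
  congr 1
  funext i
  by_cases h : i ∈ S
  · simp [h]
  · simp [h]

theorem sg_flip {p : ℕ} (hp : p ≤ 1) : sg (1 - p) = -sg p := by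
  unfold sg
  rw [Nat.cast_sub hp]
  push_cast
  ring

theorem sg_abs {p : ℕ} (hp : p ≤ 1) : |sg p| = 1 := by
  unfold sg
  rcases (show p = 0 ∨ p = 1 by omega) with h | h <;> rw [h] <;> norm_num

/-- one step: the average over a parity vector and its complement -/
theorem Phi_step (y : Fin k → ℤ) (s : ℕ) (z : Fin k → ℤ) (p : Fin k → ℕ) (hp : ∀ i, p i ≤ 1) :
    (Phi y s (fun i => z i + p i) + Phi y s (fun i => z i + (1 - p i : ℕ))) / 2 =
      Phi y (s + 1) z + ∑ S : Finset (Fin k) with 2 ≤ #S ∧ Even #S, (∏ i ∈ S, sg (p i)) * dS y S s z := by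
  rw [Phi_expand y s z p hp, Phi_expand y s z (fun i => 1 - p i) (fun i => Nat.sub_le _ _), ← sum_add_distrib, sum_div]
  have e1 : ∀ S : Finset (Fin k), ((∏ i ∈ S, sg (p i)) * dS y S s z + (∏ i ∈ S, sg (1 - p i)) * dS y S s z) / 2 =
      if Even #S then (∏ i ∈ S, sg (p i)) * dS y S s z else 0 := by
    intro S
    have e2 : ∏ i ∈ S, sg (1 - p i) = (-1) ^ #S * ∏ i ∈ S, sg (p i) := by
      rw [prod_congr rfl (fun i _ => sg_flip (hp i)), prod_neg]
    rw [e2]
    split_ifs with h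
    · rw [h.neg_one_pow]; ring
    · rw [(Nat.not_even_iff_odd.1 h).neg_one_pow]; ring
  simp only [e1]
  rw [← sum_filter]
  have e3 : (univ.filter fun S : Finset (Fin k) => Even #S) = insert ∅ (univ.filter fun S : Finset (Fin k) => 2 ≤ #S ∧ Even #S) := by
    ext S
    simp only [mem_filter, mem_univ, true_and, mem_insert]
    constructor
    · intro h
      by_cases h0 : S = ∅
      · left; exact h0
      · right
        refine ⟨?_, h⟩
        have h1 : 0 < #S := card_pos.2 (nonempty_iff_ne_empty.2 h0)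
        rcases h with ⟨r, hr⟩
        omega
    · rintro (rfl | h)
      · simp
      · exact h.2
  rw [e3, sum_insert (by simp)]
  congr 1
  rw [prod_empty, one_mul, dS_empty]

/-! Bounds. -/

/-- the scale -/
noncomputable def hh (s : ℕ) : ℝ := 3 / √ (s : ℝ)

theorem hh_nonneg (s : ℕ) : 0 ≤ hh s := by unfold hh; positivity

theorem hh_sq {s : ℕ} (hs : 1 ≤ s) : hh s ^ 2 = 9 / s := by
  unfold hh
  rw [div_pow, Real.sq_sqrt (by positivity)]; norm_num

theorem Rw_bd (y : Fin k → ℤ) (i : Fin k) (s : ℕ) (z : ℤ) (j : Fin k) : |Rw y i s z j| ≤ 1 := by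
  unfold Rw
  obtain ⟨h1, h2⟩ := Fb_mem s (y j - z)
  split_ifs <;> rw [abs_le] <;> constructor <;> linarith

section

variable {s₁ : ℕ} (hs : 1 ≤ s₁)

include hs

theorem one_sqrt_le {s : ℕ} (h : s₁ ≤ s) : 1 / √ (s : ℝ) ≤ hh s₁ := by
  unfold hh
  have h1 : (0 : ℝ) < s₁ := by exact_mod_cast hs
  have h2 : (s₁ : ℝ) ≤ s := by exact_mod_cast h
  have h3 : 1 / √ (s : ℝ) ≤ 1 / √ (s₁ : ℝ) := by gcongr
  refine h3.trans ?_
  gcongr
  norm_num

theorem pm_bd {s : ℕ} (h : s₁ ≤ s) (d : ℤ) : pm s d ≤ hh s₁ := (pm_le (hs.trans h) d).trans (one_sqrt_le hs h)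

theorem dpm_bd {s : ℕ} (h : s₁ ≤ s) (d : ℤ) : |pm s d - pm s (d - 1)| ≤ hh s₁ ^ 2 := by
  rw [hh_sq hs]
  refine (pm_dif (hs.trans h) d).trans ?_
  have h1 : (0 : ℝ) < s₁ := by exact_mod_cast hs
  have h2 : (s₁ : ℝ) ≤ s := by exact_mod_cast h
  have h3 : (6 : ℝ) / s ≤ 6 / s₁ := by gcongr
  refine h3.trans ?_
  gcongr
  norm_num

theorem Vw_bd (y : Fin k → ℤ) {s : ℕ} (h : s₁ ≤ s) (z : ℤ) (j : Fin k) : |Vw y s z j| ≤ hh s₁ := by
  unfold Vw
  have h1 := pm_bd hs h (y j - z)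
  have h2 := pm_nonneg s (y j - z)
  rw [abs_neg, abs_of_nonneg (by linarith)]
  linarith

omit hs in
/-- from steps of length one to all steps -/
theorem lip {g : ℕ → ℤ → ℝ} {B : ℝ} (h1 : ∀ s, s₁ ≤ s → ∀ z, |g s (z + 1) - g s z| ≤ B)
    (h2 : ∀ s, s₁ ≤ s → ∀ z, |g (s + 1) z - g s z| ≤ B) {s s' : ℕ} (hs1 : s₁ ≤ s) (hs2 : s₁ ≤ s') (z z' : ℤ) {n : ℕ}
    (hn : |z - z'| ≤ n) (hn' : |(s : ℤ) - s'| ≤ n) : |g s z - g s' z'| ≤ 2 * n * B := by
  have hB : 0 ≤ B := (abs_nonneg _).trans (h1 s hs1 z)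
  have a1 : ∀ (m : ℕ) (z : ℤ), |g s (z + m) - g s z| ≤ m * B := by
    intro m
    induction m with
    | zero => intro z; simp
    | succ m ih =>
      intro z
      have e : g s (z + ((m + 1 : ℕ) : ℤ)) - g s z = (g s (z + m + 1) - g s (z + m)) + (g s (z + m) - g s z) := by
        push_cast; rw [← add_assoc]; ring
      rw [e]
      refine (abs_add_le _ _).trans ?_
      have := h1 s hs1 (z + m)
      have := ih z
      push_cast
      linarith
  have a2 : ∀ (m s : ℕ), s₁ ≤ s → |g (s + m) z' - g s z'| ≤ m * B := by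
    intro m
    induction m with
    | zero => intro s _; simp
    | succ m ih =>
      intro s hs'
      have e : g (s + (m + 1)) z' - g s z' = (g (s + m + 1) z' - g (s + m) z') + (g (s + m) z' - g s z') := by
        rw [← add_assoc]; ring
      rw [e]
      refine (abs_add_le _ _).trans ?_
      have := h2 (s + m) (by omega) z'
      have := ih s hs'
      push_cast
      linarith
  have b1 : |g s z - g s z'| ≤ n * B := by
    rcases le_total z z' with h | h
    · obtain ⟨m, hm⟩ := Int.eq_ofNat_of_zero_le (show 0 ≤ z' - z by omega)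
      have e : z' = z + m := by omega
      rw [e, abs_sub_comm]
      refine (a1 m z).trans ?_
      apply mul_le_mul_of_nonneg_right _ hB
      rw [abs_le] at hn
      exact_mod_cast (by omega : (m : ℤ) ≤ n)
    · obtain ⟨m, hm⟩ := Int.eq_ofNat_of_zero_le (show 0 ≤ z - z' by omega)
      have e : z = z' + m := by omega
      rw [e]
      refine (a1 m z').trans ?_
      apply mul_le_mul_of_nonneg_right _ hB
      rw [abs_le] at hn
      exact_mod_cast (by omega : (m : ℤ) ≤ n)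
  have b2 : |g s z' - g s' z'| ≤ n * B := by
    rw [abs_le] at hn'
    rcases le_total s s' with h | h
    · obtain ⟨m, rfl⟩ := Nat.exists_eq_add_of_le h
      rw [abs_sub_comm]
      refine (a2 m s hs1).trans ?_
      apply mul_le_mul_of_nonneg_right _ hB
      push_cast at hn'
      exact_mod_cast (by omega : (m : ℤ) ≤ n)
    · obtain ⟨m, rfl⟩ := Nat.exists_eq_add_of_le h
      refine (a2 m s' hs2).trans ?_
      apply mul_le_mul_of_nonneg_right _ hB
      push_cast at hn'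
      exact_mod_cast (by omega : (m : ℤ) ≤ n)
  calc |g s z - g s' z'| = |(g s z - g s z') + (g s z' - g s' z')| := by congr 1; ring
    _ ≤ n * B + n * B := (abs_add_le _ _).trans (add_le_add b1 b2)
    _ = 2 * n * B := by ring

theorem Rw_lip (y : Fin k → ℤ) (i : Fin k) {s s' : ℕ} (hs1 : s₁ ≤ s) (hs2 : s₁ ≤ s') (z z' : ℤ) {n : ℕ}
    (hn : |z - z'| ≤ n) (hn' : |(s : ℤ) - s'| ≤ n) (j : Fin k) : |Rw y i s z j - Rw y i s' z' j| ≤ 2 * n * hh s₁ := by
  have h1 : ∀ s, s₁ ≤ s → ∀ z, |Rw y i s (z + 1) j - Rw y i s z j| ≤ hh s₁ := by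
    intro s h z
    rw [Rw_add, Rw_sub y i s z]
    simp only [Pi.add_apply, Pi.sub_apply]
    have h1 := pm_bd hs h (y j - z)
    have h2 := pm_nonneg s (y j - z)
    have e : Rw y i (s + 1) z j + Vw y s z j - (Rw y i (s + 1) z j - Vw y s z j) = -pm s (y j - z) := by
      unfold Vw; ring
    rw [e, abs_neg, abs_of_nonneg h2]
    exact h1
  refine lip (g := fun s z => Rw y i s z j) h1 (fun s h z => ?_) hs1 hs2 z z' hn hn'
  have h3 := Vw_bd hs y h z j
  have e : Rw y i (s + 1) z j - Rw y i s z j = Vw y s z j := by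
    rw [Rw_sub y i s z]; simp only [Pi.sub_apply]; ring
  rw [e]
  exact h3

theorem Vw_lip (y : Fin k → ℤ) {s s' : ℕ} (hs1 : s₁ ≤ s) (hs2 : s₁ ≤ s') (z z' : ℤ) {n : ℕ}
    (hn : |z - z'| ≤ n) (hn' : |(s : ℤ) - s'| ≤ n) (j : Fin k) : |Vw y s z j - Vw y s' z' j| ≤ 2 * n * hh s₁ ^ 2 := by
  have h1 : ∀ s, s₁ ≤ s → ∀ z, |Vw y s (z + 1) j - Vw y s z j| ≤ hh s₁ ^ 2 := by
    intro s h z
    have h3 := dpm_bd hs h (y j - z)
    have h0 : 0 ≤ |pm s (y j - z) - pm s (y j - z - 1)| := abs_nonneg _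
    have e : Vw y s (z + 1) j - Vw y s z j = (pm s (y j - z) - pm s (y j - z - 1)) / 2 := by
      unfold Vw
      rw [show y j - (z + 1) = y j - z - 1 by ring]
      ring
    rw [e, abs_div, abs_of_pos (by norm_num : (0 : ℝ) < 2)]
    linarith
  refine lip (g := fun s z => Vw y s z j) h1 (fun s h z => ?_) hs1 hs2 z z' hn hn'
  have h3 := dpm_bd hs h (y j - z)
  have h0 : 0 ≤ |pm s (y j - z) - pm s (y j - z - 1)| := abs_nonneg _
  have e : Vw y (s + 1) z j - Vw y s z j = (pm s (y j - z) - pm s (y j - z - 1)) / 4 := by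
    unfold Vw
    rw [pm_succ]
    ring
  rw [e, abs_div, abs_of_pos (by norm_num : (0 : ℝ) < 4)]
  linarith

theorem prod_ite_hh (S : Finset (Fin k)) : ∏ i, (if i ∈ S then hh s₁ else 1) = hh s₁ ^ #S := by
  rw [prod_ite_mem, univ_inter, prod_const]

theorem dS_bd (y : Fin k → ℤ) (S : Finset (Fin k)) {s : ℕ} (h : s₁ ≤ s) (z : Fin k → ℤ) :
    |dS y S s z| ≤ k.factorial * hh s₁ ^ #S := by
  rw [← prod_ite_hh hs]
  apply det_bd
  intro i j
  by_cases hi : i ∈ S
  · simp only [if_pos hi]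
    exact Vw_bd hs y h _ _
  · simp only [if_neg hi]
    exact Rw_bd _ _ _ _ _

theorem dS_lip (y : Fin k → ℤ) (S : Finset (Fin k)) {s s' : ℕ} (hs1 : s₁ ≤ s) (hs2 : s₁ ≤ s') (z z' : Fin k → ℤ)
    {n : ℕ} (hn : ∀ i, |z i - z' i| ≤ n) (hn' : |(s : ℤ) - s'| ≤ n) :
    |dS y S s z - dS y S s' z'| ≤ k.factorial * (k * (2 * n * hh s₁) * hh s₁ ^ #S) := by
  rw [← prod_ite_hh hs]
  have hh0 := hh_nonneg s₁
  apply det_dif _ _ _ (by positivity)
  · intro i j
    by_cases hi : i ∈ S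
    · simp only [if_pos hi]; exact Vw_bd hs y hs1 _ _
    · simp only [if_neg hi]; exact Rw_bd _ _ _ _ _
  · intro i j
    by_cases hi : i ∈ S
    · simp only [if_pos hi]; exact Vw_bd hs y hs2 _ _
    · simp only [if_neg hi]; exact Rw_bd _ _ _ _ _
  · intro i j
    by_cases hi : i ∈ S
    · simp only [if_pos hi]
      refine (Vw_lip hs y hs1 hs2 _ _ (hn i) hn' j).trans (le_of_eq ?_)
      ring
    · simp only [if_neg hi, mul_one]
      refine Rw_lip hs y i (hs1.trans (Nat.le_succ s)) (hs2.trans (Nat.le_succ s')) _ _ (hn i) ?_ j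
      push_cast
      rw [show (s : ℤ) + 1 - (s' + 1) = s - s' by ring]
      exact hn'

theorem Phi_lip (y : Fin k → ℤ) {s : ℕ} (hs1 : s₁ ≤ s) (z z' : Fin k → ℤ)
    {n : ℕ} (hn : ∀ i, |z i - z' i| ≤ n) : |Phi y s z - Phi y s z'| ≤ k.factorial * (k * (2 * n * hh s₁)) := by
  have hh0 := hh_nonneg s₁
  have := det_dif (fun i j => Rw y i s (z i) j) (fun i j => Rw y i s (z' i) j) (fun _ => 1)
    (e := 2 * n * hh s₁) (by positivity) (fun i j => Rw_bd _ _ _ _ _) (fun i j => Rw_bd _ _ _ _ _) (fun i j => by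
      rw [mul_one]
      exact Rw_lip hs y i hs1 hs1 _ _ (hn i) (by simp) j)
  rw [prod_const_one, mul_one] at this
  exact this

end

theorem Phi_bd (y : Fin k → ℤ) (s : ℕ) (z : Fin k → ℤ) : |Phi y s z| ≤ k.factorial := by
  have := det_bd (fun i j => Rw y i s (z i) j) (fun _ => 1) (fun i j => Rw_bd _ _ _ _ _)
  rw [prod_const_one, mul_one] at this
  exact this

/-- merged walks do not contribute -/
theorem dS_merged (y : Fin k → ℤ) {S : Finset (Fin k)} (s : ℕ) {z : Fin k → ℤ} {i j : Fin k} (hij : i ≠ j)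
    (hi : i ∈ S) (hj : j ∈ S) (h : z i = z j) : dS y S s z = 0 := by
  unfold dS
  apply Matrix.det_zero_of_row_eq hij
  funext l
  simp only [if_pos hi, if_pos hj, h]

/-- the determinant at time zero -/
theorem det_sorted {z Y : Fin k → ℝ} (hz : Monotone z) (hY : Monotone Y) :
    Matrix.det (fun i j => (if z i ≤ Y j then (1 : ℝ) else 0) - if i < j then 1 else 0) =
      if ∀ i, z i ≤ Y i then 1 else 0 := by
  split_ifs with h
  · rw [Matrix.det_of_lowerTriangular]
    · apply prod_eq_one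
      intro i _
      rw [if_pos (h i), if_neg (lt_irrefl i), sub_zero]
    · intro i j hij
      have hij' : i < j := hij
      show (if z i ≤ Y j then (1 : ℝ) else 0) - (if i < j then 1 else 0) = 0
      rw [if_pos ((h i).trans (hY hij'.le)), if_pos hij', sub_self]
  · push Not at h
    obtain ⟨i, hi⟩ := h
    rw [Matrix.det_apply]
    apply sum_eq_zero
    intro σ _
    obtain ⟨l, hl, hσ⟩ : ∃ l : Fin k, l ≤ i ∧ i ≤ σ l := by
      by_contra hcon
      push Not at hcon
      have h1 : #((univ.filter fun l : Fin k => l ≤ i).image σ) ≤ #(univ.filter fun l : Fin k => l < i) := by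
        apply card_le_card
        intro m hm
        rw [mem_image] at hm
        obtain ⟨l, hl, rfl⟩ := hm
        rw [mem_filter] at hl
        rw [mem_filter]
        exact ⟨mem_univ _, hcon l hl.2⟩
      rw [card_image_of_injective _ σ.injective] at h1
      have h2 : #(univ.filter fun l : Fin k => l < i) < #(univ.filter fun l : Fin k => l ≤ i) := by
        apply card_lt_card
        rw [ssubset_iff_of_subset]
        · exact ⟨i, by simp, by simp⟩
        · intro l hl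
          rw [mem_filter] at hl ⊢
          exact ⟨hl.1, hl.2.le⟩
      omega
    have e : (if z (σ l) ≤ Y l then (1 : ℝ) else 0) - (if σ l < l then 1 else 0) = 0 := by
      rw [if_neg, if_neg, sub_self]
      · exact not_lt.2 (hl.trans hσ)
      · push Not
        exact (hY hl).trans_lt (hi.trans_le (hz hσ))
    rw [prod_eq_zero (mem_univ l) e, smul_zero]

theorem Fb_near {s : ℕ} {d : ℤ} {K : ℝ} (hK : 0 < K) (hs : 1 ≤ s) (h : K * √ (s : ℝ) ≤ |2 * (d : ℝ) - s|) :
    |Fb s d - if (s : ℝ) ≤ 2 * d then 1 else 0| ≤ 1 / K ^ 2 := by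
  have hs0 : (0 : ℝ) < s := by exact_mod_cast hs
  have h2 : K ^ 2 * s ≤ (2 * (d : ℝ) - s) ^ 2 := by
    have h3 := mul_self_le_mul_self (by positivity) h
    rw [abs_mul_abs_self] at h3
    have h4 : K * √ (s : ℝ) * (K * √ (s : ℝ)) = K ^ 2 * s := by
      rw [show K * √ (s : ℝ) * (K * √ (s : ℝ)) = K ^ 2 * (√ (s : ℝ) * √ (s : ℝ)) by ring, Real.mul_self_sqrt hs0.le]
    rw [h4] at h3
    linarith [sq (2 * (d : ℝ) - s)]
  obtain ⟨h5, h6⟩ := Fb_mem s d
  rw [le_div_iff₀ (by positivity)]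
  split_ifs with hd
  · have h7 := Fb_high (s := s) (d := d) (by exact_mod_cast hd)
    rw [abs_sub_comm, abs_of_nonneg (by linarith)]
    have h8 : (1 - Fb s d) * (K ^ 2 * s) ≤ s := (mul_le_mul_of_nonneg_left h2 (by linarith)).trans h7
    have h9 : ((1 - Fb s d) * K ^ 2) * s ≤ 1 * s := by linarith
    exact le_of_mul_le_mul_right h9 hs0
  · push Not at hd
    have h7 := Fb_low (s := s) (d := d) (by exact_mod_cast hd)
    rw [sub_zero, abs_of_nonneg h5]
    have h8 : Fb s d * (K ^ 2 * s) ≤ s := by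
      refine le_trans (mul_le_mul_of_nonneg_left h2 h5) ?_
      rw [show (2 * (d : ℝ) - s) ^ 2 = (s - 2 * (d : ℝ)) ^ 2 by ring]
      exact h7
    have h9 : (Fb s d * K ^ 2) * s ≤ 1 * s := by linarith
    exact le_of_mul_le_mul_right h9 hs0

/-- the determinant at sorted points far from the thresholds -/
theorem Phi_sorted {y z : Fin k → ℤ} (hz : Monotone z) (hy : Monotone y) {s : ℕ} (hs : 1 ≤ s) {K : ℝ} (hK : 0 < K)
    (h : ∀ i j, K * √ (s : ℝ) ≤ |2 * ((y j - z i : ℤ) : ℝ) - s|) :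
    |Phi y s z - if ∀ i, (s : ℝ) ≤ 2 * ((y i - z i : ℤ) : ℝ) then 1 else 0| ≤ k.factorial * (k * (1 / K ^ 2)) := by
  have h1 := det_sorted (z := fun i => 2 * (z i : ℝ)) (Y := fun j => 2 * (y j : ℝ) - s)
    (fun a b hab => by
      have : (z a : ℝ) ≤ z b := by exact_mod_cast hz hab
      simp only; linarith)
    (fun a b hab => by
      have : (y a : ℝ) ≤ y b := by exact_mod_cast hy hab
      simp only; linarith)
  have e : ∀ i j, (2 * (z i : ℝ) ≤ 2 * (y j : ℝ) - s) ↔ ((s : ℝ) ≤ 2 * ((y j - z i : ℤ) : ℝ)) := by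
    intro i j
    push_cast
    constructor <;> intro h <;> linarith
  simp only [e] at h1
  rw [← h1]
  have h2 := det_dif (fun i j => Rw y i s (z i) j)
    (fun i j => (if (s : ℝ) ≤ 2 * ((y j - z i : ℤ) : ℝ) then (1 : ℝ) else 0) - if i < j then 1 else 0) (fun _ => 1)
    (e := 1 / K ^ 2) (by positivity) (fun i j => Rw_bd _ _ _ _ _) (fun i j => by split_ifs <;> norm_num) (fun i j => by
      rw [mul_one]
      unfold Rw
      have h3 := Fb_near hK hs (h i j)
      have e2 : (Fb s (y j - z i) - if i < j then 1 else 0) -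
          ((if (s : ℝ) ≤ 2 * ((y j - z i : ℤ) : ℝ) then (1 : ℝ) else 0) - if i < j then 1 else 0) =
          Fb s (y j - z i) - if (s : ℝ) ≤ 2 * ((y j - z i : ℤ) : ℝ) then (1 : ℝ) else 0 := by ring
      rw [e2]
      exact h3)
  rw [prod_const_one, mul_one] at h2
  exact h2

end Pool.Agent.J4H26.AF
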