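import Mathlib
import Pool.Agent.J4H26.AF.Det
import Pool.Agent.J4H26.CC.S

set_option autoImplicit false

/-! The exponents of several linear forms: the determinants are almost martingales. -/

namespace Pool.Agent.J4H26.AF

open Finset
open Pool.Agent.J4H39 (T od pr cd Per ex pb ex_succ ex_per ex_add ex_mul ex_sum ex_const ex_mono ex_congr ex_zero pr_flip
  pr_add_lt per_od pow3_odd pr_le cd_succ pr_iter pb_nonneg od_succ iter_add_le pb_le_one)

variable {k : ℕ} (a : Fin k → ℕ) (r : Fin k → ℤ)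

/-- the linear forms -/
def Lf (i : Fin k) (m : ℤ) : ℤ := 3 ^ a i * m + r i

/-- the exponents at time `n` -/
def AA (n : ℕ) (m : ℤ) (i : Fin k) : ℤ := (a i : ℤ) + od n (Lf a r i m)

theorem Lf_add (i : Fin k) (m : ℤ) (n : ℕ) (u : ℤ) : Lf a r i (m + 2 ^ n * u) = Lf a r i m + 2 ^ n * (3 ^ a i * u) := by
  unfold Lf; ring

theorem per_AA {n t : ℕ} (h : n ≤ t) : Per t (AA a r n) := by
  intro m u
  funext i
  unfold AA
  rw [Lf_add, (iter_add_le h _ _).1]

theorem AA_succ (n : ℕ) (m : ℤ) : AA a r (n + 1) m = fun i => AA a r n m i + (pr n (Lf a r i m) : ℕ) := by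
  funext i
  unfold AA
  rw [od_succ]
  push_cast
  ring

theorem pr_Lf_flip (n : ℕ) (i : Fin k) (m : ℤ) : pr n (Lf a r i (m + 2 ^ n)) = 1 - pr n (Lf a r i m) := by
  have h := pow3_odd (a i)
  obtain ⟨w, hw⟩ : ∃ w : ℤ, (3 : ℤ) ^ a i = 1 + 2 * w := ⟨3 ^ a i / 2, by omega⟩
  have e : Lf a r i (m + 2 ^ n) = (Lf a r i m + 2 ^ n) + 2 ^ (n + 1) * w := by
    unfold Lf
    rw [mul_add, hw, pow_succ]; ring
  rw [e, pr_add_lt (Nat.lt_succ_self n), pr_flip]

theorem pr_Lf_per (n : ℕ) (i : Fin k) (m u : ℤ) : pr n (Lf a r i (m + 2 ^ (n + 1) * u)) = pr n (Lf a r i m) := by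
  rw [Lf_add, pr_add_lt (Nat.lt_succ_self n)]

/-- product of signs -/
noncomputable def chi (S : Finset (Fin k)) (n : ℕ) (m : ℤ) : ℝ := ∏ i ∈ S, sg (pr n (Lf a r i m))

theorem chi_abs (S : Finset (Fin k)) (n : ℕ) (m : ℤ) : |chi a r S n m| = 1 := by
  unfold chi
  rw [abs_prod]
  exact prod_eq_one fun i _ => sg_abs (pr_le n _)

theorem per_chi {S : Finset (Fin k)} (hS : Even #S) (n : ℕ) : Per n (chi a r S n) := by
  intro m u
  unfold chi
  obtain ⟨v, hv⟩ := Int.even_or_odd' u
  rcases hv with rfl | rfl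
  · apply prod_congr rfl
    intro i _
    rw [show m + 2 ^ n * (2 * v) = m + 2 ^ (n + 1) * v by rw [pow_succ]; ring, pr_Lf_per]
  · have e : ∀ i, sg (pr n (Lf a r i (m + 2 ^ n * (2 * v + 1)))) = -sg (pr n (Lf a r i m)) := by
      intro i
      rw [show m + 2 ^ n * (2 * v + 1) = (m + 2 ^ (n + 1) * v) + 2 ^ n by rw [pow_succ]; ring, pr_Lf_flip, pr_Lf_per,
        sg_flip (pr_le n _)]
    rw [prod_congr rfl (fun i _ => e i), prod_neg, hS.neg_one_pow, one_mul]

variable (y : Fin k → ℤ)

/-- the mean of the determinant at time `n` -/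
noncomputable def EE (t n : ℕ) : ℝ := ex n (fun m => Phi y (t - n) (AA a r n m))

/-- the mixed difference at time `n` -/
noncomputable def gg (S : Finset (Fin k)) (t n : ℕ) (m : ℤ) : ℝ := dS y S (t - n - 1) (AA a r n m)

theorem per_gg (S : Finset (Fin k)) (t n : ℕ) : Per n (gg a r y S t n) := (per_AA a r le_rfl).comp _

/-- the sets which contribute -/
def Ev2 (k : ℕ) : Finset (Finset (Fin k)) := univ.filter fun S => 2 ≤ #S ∧ Even #S

theorem EE_step {t n : ℕ} (hn : n < t) : EE a r y t (n + 1) - EE a r y t n =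
    ∑ S ∈ Ev2 k, ex t (fun m => chi a r S n m * gg a r y S t n m) := by
  have h1 : EE a r y t (n + 1) = ex n (fun m => Phi y (t - n) (AA a r n m) +
      ∑ S ∈ Ev2 k, chi a r S n m * gg a r y S t n m) := by
    unfold EE
    rw [ex_succ]
    apply ex_congr
    intro m
    have e1 : AA a r (n + 1) (m + 2 ^ n) = fun i => AA a r n m i + (1 - pr n (Lf a r i m) : ℕ) := by
      rw [AA_succ]
      funext i
      have h := per_AA a r (le_refl n) m 1
      rw [mul_one] at h
      rw [h, pr_Lf_flip]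
    rw [e1, AA_succ, Phi_step y _ _ _ (fun i => pr_le n _)]
    have e2 : t - (n + 1) + 1 = t - n := by omega
    rw [e2]
    congr 1
  rw [h1, ex_add]
  unfold EE
  rw [add_sub_cancel_left, ex_sum]
  apply sum_congr rfl
  intro S hS
  have hS' : Even #S := (mem_filter.1 hS).2.2
  have hp : Per n (fun m => chi a r S n m * gg a r y S t n m) := by
    intro m u
    simp only
    rw [per_chi a r hS' n m u, per_gg a r y S t n m u]
  exact (ex_per hn.le hp).symm

theorem EE_tele {t n₁ : ℕ} (h : n₁ ≤ t) : EE a r y t n₁ - EE a r y t 0 =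
    ∑ S ∈ Ev2 k, ∑ n ∈ range n₁, ex t (fun m => chi a r S n m * gg a r y S t n m) := by
  induction n₁ with
  | zero => simp
  | succ n ih =>
    have h1 := ih (by omega)
    have h2 := EE_step a r y (t := t) (n := n) (by omega)
    have e : ∑ S ∈ Ev2 k, ∑ n ∈ range (n + 1), ex t (fun m => chi a r S n m * gg a r y S t n m) =
        ∑ S ∈ Ev2 k, ∑ n ∈ range n, ex t (fun m => chi a r S n m * gg a r y S t n m) +
        ∑ S ∈ Ev2 k, ex t (fun m => chi a r S n m * gg a r y S t n m) := by
      rw [← sum_add_distrib]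
      apply sum_congr rfl
      intro S _
      rw [sum_range_succ]
    rw [e, ← h1, ← h2]
    ring

theorem ex_abs {t : ℕ} {f g : ℤ → ℝ} (h : ∀ m, |f m| ≤ g m) : |ex t f| ≤ ex t g := by
  rw [abs_le]
  constructor
  · have h1 := ex_mono (j := t) (f := fun m => (-1) * g m) (g := f) (fun m => by have := (abs_le.1 (h m)).1; linarith)
    rw [ex_mul] at h1
    linarith
  · exact ex_mono fun m => (abs_le.1 (h m)).2

/-- sums over blocks -/
theorem block_sum {f X : ℕ → ℝ} {M n₁ : ℕ} (h : ∀ b, (b + 1) * M ≤ n₁ → |∑ l ∈ range M, f (b * M + l)| ≤ X b) :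
    ∀ B : ℕ, B * M ≤ n₁ → |∑ n ∈ range (B * M), f n| ≤ ∑ b ∈ range B, X b := by
  intro B
  induction B with
  | zero => intro _; simp
  | succ B ih =>
    intro hB
    have hB' : B * M ≤ n₁ := le_trans (Nat.mul_le_mul_right _ (Nat.le_succ B)) hB
    rw [show (B + 1) * M = B * M + M by ring, sum_range_add, sum_range_succ]
    exact (abs_add_le _ _).trans (add_le_add (ih hB') (h B hB))

theorem early_sum (M nη : ℕ) (B : ℕ) : (∑ b ∈ range B, (if b * M < nη then (M : ℝ) else 0)) ≤ nη + M ∧
    (∑ b ∈ range B, (if b * M < nη then (M : ℝ) else 0)) ≤ B * M := by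
  induction B with
  | zero => simp; positivity
  | succ B ih =>
    rw [sum_range_succ]
    push_cast
    split_ifs with h
    · have h1 : (B : ℝ) * M ≤ nη := by exact_mod_cast h.le
      constructor
      · linarith [ih.2]
      · linarith [ih.2]
    · constructor
      · linarith [ih.1]
      · have : (0 : ℝ) ≤ M := by positivity
        linarith [ih.2]

/-- the sum of the signs of a pair over a block -/
noncomputable def sgs (i j : Fin k) (n M : ℕ) (m : ℤ) : ℝ := ∑ l ∈ range M, chi a r {i, j} (n + l) m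

/-- a bad block -/
def Bd (i j : Fin k) (n M : ℕ) (ε : ℝ) (m : ℤ) : Prop := AA a r n m i ≠ AA a r n m j ∧ ε * M ≤ |sgs a r i j n M m|

theorem sgs_le (i j : Fin k) (n M : ℕ) (m : ℤ) : |sgs a r i j n M m| ≤ M := by
  unfold sgs
  refine (abs_sum_le_sum_abs _ _).trans ?_
  rw [sum_congr rfl (fun l _ => chi_abs a r {i, j} (n + l) m)]
  simp

variable {s₁ : ℕ} (hs : 1 ≤ s₁)

include hs

theorem gg_bd (S : Finset (Fin k)) {t n : ℕ} (h : n + s₁ + 1 ≤ t) (m : ℤ) :
    |gg a r y S t n m| ≤ k.factorial * hh s₁ ^ #S := dS_bd hs y S (by omega) _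

theorem gg_lip (S : Finset (Fin k)) {t n l M : ℕ} (hl : l ≤ M) (h : n + l + s₁ + 1 ≤ t) (m : ℤ) :
    |gg a r y S t (n + l) m - gg a r y S t n m| ≤ k.factorial * (k * (2 * M * hh s₁) * hh s₁ ^ #S) := by
  apply dS_lip hs y S (by omega) (by omega)
  · intro i
    have h1 : AA a r n m i ≤ AA a r (n + l) m i ∧ AA a r (n + l) m i ≤ AA a r n m i + l := by
      unfold AA
      have h2 : od (n + l) (Lf a r i m) = od n (Lf a r i m) + od l (T^[n] (Lf a r i m)) := Pool.Agent.J4H39.od_comp n _ l
      have h3 := Pool.Agent.J4H39.od_le l (T^[n] (Lf a r i m))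
      rw [h2]
      push_cast
      constructor <;> omega
    rw [abs_le]
    constructor <;> omega
  · rw [abs_le]
    constructor <;> omega

/-- a block -/
theorem one_block {i j : Fin k} (hij : i ≠ j) {t n M : ℕ} (h : n + M + s₁ + 1 ≤ t) {ε : ℝ} (hε : 0 ≤ ε) :
    |∑ l ∈ range M, ex t (fun m => chi a r {i, j} (n + l) m * gg a r y {i, j} t (n + l) m)| ≤
      k.factorial * hh s₁ ^ 2 * (M * (ε + pb t (Bd a r i j n M ε))) +
        M * (k.factorial * (k * (2 * M * hh s₁) * hh s₁ ^ 2)) := by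
  classical
  have hc2 : #({i, j} : Finset (Fin k)) = 2 := card_pair hij
  have hh0 := hh_nonneg s₁
  rw [← ex_sum]
  have hpt : ∀ m, |∑ l ∈ range M, chi a r {i, j} (n + l) m * gg a r y {i, j} t (n + l) m| ≤
      (k.factorial * hh s₁ ^ 2 * (M * ε) + M * (k.factorial * (k * (2 * M * hh s₁) * hh s₁ ^ 2))) +
        (k.factorial * hh s₁ ^ 2 * M) * (if Bd a r i j n M ε m then (1 : ℝ) else 0) := by
    intro m
    have e1 : ∑ l ∈ range M, chi a r {i, j} (n + l) m * gg a r y {i, j} t (n + l) m =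
        gg a r y {i, j} t n m * sgs a r i j n M m +
          ∑ l ∈ range M, chi a r {i, j} (n + l) m * (gg a r y {i, j} t (n + l) m - gg a r y {i, j} t n m) := by
      unfold sgs
      rw [mul_sum, ← sum_add_distrib]
      apply sum_congr rfl
      intro l _
      ring
    rw [e1]
    refine (abs_add_le _ _).trans ?_
    have h2 : |∑ l ∈ range M, chi a r {i, j} (n + l) m * (gg a r y {i, j} t (n + l) m - gg a r y {i, j} t n m)| ≤
        M * (k.factorial * (k * (2 * M * hh s₁) * hh s₁ ^ 2)) := by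
      refine (abs_sum_le_sum_abs _ _).trans ?_
      have : ∀ l ∈ range M, |chi a r {i, j} (n + l) m * (gg a r y {i, j} t (n + l) m - gg a r y {i, j} t n m)| ≤
          k.factorial * (k * (2 * M * hh s₁) * hh s₁ ^ 2) := by
        intro l hl
        rw [mem_range] at hl
        rw [abs_mul, chi_abs, one_mul]
        have := gg_lip a r y hs {i, j} (t := t) (n := n) (l := l) (M := M) hl.le (by omega) m
        rwa [hc2] at this
      refine (sum_le_sum this).trans (le_of_eq ?_)
      rw [sum_const, card_range, nsmul_eq_mul]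
    have h3 : |gg a r y {i, j} t n m * sgs a r i j n M m| ≤ k.factorial * hh s₁ ^ 2 * (M * ε) +
        (k.factorial * hh s₁ ^ 2 * M) * (if Bd a r i j n M ε m then (1 : ℝ) else 0) := by
      by_cases hA : AA a r n m i = AA a r n m j
      · have h4 : gg a r y {i, j} t n m = 0 := by
          unfold gg
          exact dS_merged y _ hij (by simp) (by simp) hA
        rw [h4, zero_mul, abs_zero]
        positivity
      · have h4 : |gg a r y {i, j} t n m| ≤ k.factorial * hh s₁ ^ 2 := by
          have := gg_bd a r y hs {i, j} (t := t) (n := n) (by omega) m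
          rwa [hc2] at this
        rw [abs_mul]
        by_cases hB : Bd a r i j n M ε m
        · rw [if_pos hB]
          have h5 := sgs_le a r i j n M m
          have h6 : |gg a r y {i, j} t n m| * |sgs a r i j n M m| ≤ (k.factorial * hh s₁ ^ 2) * M :=
            mul_le_mul h4 h5 (abs_nonneg _) (by positivity)
          have : 0 ≤ k.factorial * hh s₁ ^ 2 * (M * ε) := by positivity
          linarith
        · rw [if_neg hB]
          have h5 : |sgs a r i j n M m| ≤ ε * M := by
            by_contra hcon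
            push Not at hcon
            exact hB ⟨hA, hcon.le⟩
          have h6 : |gg a r y {i, j} t n m| * |sgs a r i j n M m| ≤ (k.factorial * hh s₁ ^ 2) * (ε * M) :=
            mul_le_mul h4 h5 (abs_nonneg _) (by positivity)
          linarith
    linarith
  refine (ex_abs hpt).trans (le_of_eq ?_)
  rw [ex_add, ex_const, ex_mul]
  unfold pb
  ring

/-- the bound for the pairs -/
theorem pair_total {i j : Fin k} (hij : i ≠ j) {t n₁ M nη : ℕ} (hM : 1 ≤ M) (h : n₁ + s₁ + 1 ≤ t) {ε κ : ℝ} (hε : 0 ≤ ε)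
    (hκ : 0 ≤ κ) (hbad : ∀ n, nη ≤ n → n + M ≤ n₁ → pb t (Bd a r i j n M ε) ≤ κ) :
    |∑ n ∈ range n₁, ex t (fun m => chi a r {i, j} n m * gg a r y {i, j} t n m)| ≤
      k.factorial * hh s₁ ^ 2 * (n₁ * (ε + κ) + nη + 2 * M) + n₁ * (k.factorial * (k * (2 * M * hh s₁) * hh s₁ ^ 2)) := by
  classical
  have hc2 : #({i, j} : Finset (Fin k)) = 2 := card_pair hij
  have hh0 := hh_nonneg s₁
  set B := n₁ / M with hB
  have hB1 : B * M ≤ n₁ := Nat.div_mul_le_self _ _
  have hB2 : n₁ < B * M + M := by rw [hB]; exact Nat.lt_div_mul_add (by omega)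
  obtain ⟨R, hR⟩ := Nat.exists_eq_add_of_le hB1
  have hRM : R ≤ M := by omega
  set f : ℕ → ℝ := fun n => ex t (fun m => chi a r {i, j} n m * gg a r y {i, j} t n m) with hf
  have h1 := block_sum (f := f) (X := fun b => k.factorial * hh s₁ ^ 2 * (M * (ε + pb t (Bd a r i j (b * M) M ε))) +
        M * (k.factorial * (k * (2 * M * hh s₁) * hh s₁ ^ 2))) (M := M) (n₁ := n₁) (fun b hb => by
    rw [hf]
    exact one_block a r y hs hij (by
      have : (b + 1) * M = b * M + M := by ring
      omega) hε) B hB1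
  have h2 : |∑ x ∈ range R, f (B * M + x)| ≤ M * (k.factorial * hh s₁ ^ 2) := by
    refine (abs_sum_le_sum_abs _ _).trans ?_
    have h3 : ∀ x ∈ range R, |f (B * M + x)| ≤ k.factorial * hh s₁ ^ 2 := by
      intro x hx
      rw [mem_range] at hx
      rw [hf]
      simp only
      have h4 : ∀ m, |chi a r {i, j} (B * M + x) m * gg a r y {i, j} t (B * M + x) m| ≤ k.factorial * hh s₁ ^ 2 := by
        intro m
        rw [abs_mul, chi_abs, one_mul]
        have := gg_bd a r y hs {i, j} (t := t) (n := B * M + x) (by omega) m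
        rwa [hc2] at this
      have := ex_abs h4 (t := t)
      rwa [ex_const] at this
    refine (sum_le_sum h3).trans ?_
    rw [sum_const, card_range, nsmul_eq_mul]
    have : (R : ℝ) ≤ M := by exact_mod_cast hRM
    gcongr
  have e1 : ∑ n ∈ range n₁, ex t (fun m => chi a r {i, j} n m * gg a r y {i, j} t n m) =
      ∑ n ∈ range (B * M), f n + ∑ x ∈ range R, f (B * M + x) := by
    rw [← sum_range_add, ← hR]
  rw [e1]
  refine (abs_add_le _ _).trans ?_
  have h5 : ∑ b ∈ range B, (k.factorial * hh s₁ ^ 2 * (M * (ε + pb t (Bd a r i j (b * M) M ε))) +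
        M * (k.factorial * (k * (2 * M * hh s₁) * hh s₁ ^ 2))) ≤
      k.factorial * hh s₁ ^ 2 * (n₁ * (ε + κ) + (nη + M)) + n₁ * (k.factorial * (k * (2 * M * hh s₁) * hh s₁ ^ 2)) := by
    rw [sum_add_distrib, ← mul_sum, sum_const, card_range, nsmul_eq_mul]
    have hBM : (B : ℝ) * M ≤ n₁ := by exact_mod_cast hB1
    have a1 : ∑ b ∈ range B, (M : ℝ) * (ε + pb t (Bd a r i j (b * M) M ε)) ≤ n₁ * (ε + κ) + (nη + M) := by
      have a2 : ∀ b ∈ range B, (M : ℝ) * (ε + pb t (Bd a r i j (b * M) M ε)) ≤ M * (ε + κ) + (if b * M < nη then (M : ℝ) else 0) := by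
        intro b hb
        rw [mem_range] at hb
        have hM0 : (0 : ℝ) ≤ M := by positivity
        split_ifs with hb1
        · have := pb_le_one t (Bd a r i j (b * M) M ε)
          have : (M : ℝ) * (ε + pb t (Bd a r i j (b * M) M ε)) ≤ M * (ε + 1) := by gcongr
          have : 0 ≤ (M : ℝ) * κ := by positivity
          linarith
        · have hb2 : b * M + M ≤ n₁ := by
            have : (b + 1) * M ≤ B * M := Nat.mul_le_mul_right _ hb
            have : (b + 1) * M = b * M + M := by ring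
            omega
          have := hbad (b * M) (by omega) hb2
          rw [add_zero]
          gcongr
      refine (sum_le_sum a2).trans ?_
      rw [sum_add_distrib, sum_const, card_range, nsmul_eq_mul]
      have a3 := (early_sum M nη B).1
      have a4 : (B : ℝ) * (M * (ε + κ)) ≤ n₁ * (ε + κ) := by
        rw [← mul_assoc]; gcongr
      linarith
    have a5 : (B : ℝ) * (M * (k.factorial * (k * (2 * M * hh s₁) * hh s₁ ^ 2))) ≤
        n₁ * (k.factorial * (k * (2 * M * hh s₁) * hh s₁ ^ 2)) := by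
      rw [← mul_assoc]; gcongr
    have a6 : k.factorial * hh s₁ ^ 2 * (∑ b ∈ range B, (M : ℝ) * (ε + pb t (Bd a r i j (b * M) M ε))) ≤
        k.factorial * hh s₁ ^ 2 * (n₁ * (ε + κ) + (nη + M)) := mul_le_mul_of_nonneg_left a1 (by positivity)
    linarith
  have h6 := h1.trans h5
  have e2 : k.factorial * hh s₁ ^ 2 * (n₁ * (ε + κ) + nη + 2 * M) + n₁ * (k.factorial * (k * (2 * M * hh s₁) * hh s₁ ^ 2)) =
      (k.factorial * hh s₁ ^ 2 * (n₁ * (ε + κ) + (nη + M)) + n₁ * (k.factorial * (k * (2 * M * hh s₁) * hh s₁ ^ 2))) +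
        M * (k.factorial * hh s₁ ^ 2) := by ring
  rw [e2]
  exact add_le_add h6 h2

/-- the determinants are almost martingales -/
theorem EE_bound {t n₁ M nη : ℕ} (hM : 1 ≤ M) (h : n₁ + s₁ + 1 ≤ t) {ε κ : ℝ} (hε : 0 ≤ ε)
    (hκ : 0 ≤ κ) (hh1 : hh s₁ ≤ 1)
    (hbad : ∀ i j : Fin k, i ≠ j → ∀ n, nη ≤ n → n + M ≤ n₁ → pb t (Bd a r i j n M ε) ≤ κ) :
    |EE a r y t n₁ - EE a r y t 0| ≤ 2 ^ k * (k.factorial * hh s₁ ^ 2 * (n₁ * (ε + κ) + nη + 2 * M) +
      n₁ * (k.factorial * (k * (2 * M * hh s₁) * hh s₁ ^ 2)) + n₁ * (k.factorial * hh s₁ ^ 4)) := by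
  classical
  have hh0 := hh_nonneg s₁
  rw [EE_tele a r y (by omega)]
  refine (abs_sum_le_sum_abs _ _).trans ?_
  have key : ∀ S ∈ Ev2 k, |∑ n ∈ range n₁, ex t (fun m => chi a r S n m * gg a r y S t n m)| ≤
      k.factorial * hh s₁ ^ 2 * (n₁ * (ε + κ) + nη + 2 * M) +
      n₁ * (k.factorial * (k * (2 * M * hh s₁) * hh s₁ ^ 2)) + n₁ * (k.factorial * hh s₁ ^ 4) := by
    intro S hS
    obtain ⟨h2, hev⟩ := (mem_filter.1 hS).2
    rcases (show #S = 2 ∨ 4 ≤ #S by obtain ⟨c, hc⟩ := hev; omega) with h3 | h3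
    · obtain ⟨i, j, hij, rfl⟩ := card_eq_two.1 h3
      refine (pair_total a r y hs hij hM h hε hκ (hbad i j hij)).trans ?_
      have : 0 ≤ n₁ * (k.factorial * hh s₁ ^ 4) := by positivity
      linarith
    · have h4 : |∑ n ∈ range n₁, ex t (fun m => chi a r S n m * gg a r y S t n m)| ≤ n₁ * (k.factorial * hh s₁ ^ 4) := by
        refine (abs_sum_le_sum_abs _ _).trans ?_
        have h5 : ∀ n ∈ range n₁, |ex t (fun m => chi a r S n m * gg a r y S t n m)| ≤ k.factorial * hh s₁ ^ 4 := by
          intro n hn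
          rw [mem_range] at hn
          have h6 : ∀ m, |chi a r S n m * gg a r y S t n m| ≤ k.factorial * hh s₁ ^ 4 := by
            intro m
            rw [abs_mul, chi_abs, one_mul]
            refine (gg_bd a r y hs S (t := t) (n := n) (by omega) m).trans ?_
            apply mul_le_mul_of_nonneg_left _ (by positivity)
            exact pow_le_pow_of_le_one hh0 hh1 h3
          have := ex_abs h6 (t := t)
          rwa [ex_const] at this
        refine (sum_le_sum h5).trans (le_of_eq ?_)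
        rw [sum_const, card_range, nsmul_eq_mul]
      have : 0 ≤ k.factorial * hh s₁ ^ 2 * (n₁ * (ε + κ) + nη + 2 * M) +
        n₁ * (k.factorial * (k * (2 * M * hh s₁) * hh s₁ ^ 2)) := by positivity
      linarith
  refine (sum_le_sum key).trans ?_
  rw [sum_const, nsmul_eq_mul]
  apply mul_le_mul_of_nonneg_right _ (by positivity)
  have : #(Ev2 k) ≤ 2 ^ k := by
    refine (card_filter_le _ _).trans ?_
    rw [card_univ, Fintype.card_finset, Fintype.card_fin]
  exact_mod_cast this

end Pool.Agent.J4H26.AF
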