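import Mathlib
import Pool.Agent.J4H26.AF.Low
import Pool.Agent.J4H26.AF.Walk
import Pool.Agent.J4H39.V4

set_option autoImplicit false

/-! Pairs of forms: bad blocks and disorder are rare. -/

namespace Pool.Agent.J4H26.AF

open Finset Filter Topology
open Pool.Agent.H499R2.CO (q step P pw pw_nonneg)
open Pool.Agent.J4H39 (T od pr cd Per ex pb ex_succ ex_per ex_add ex_mul ex_sum ex_const ex_mono ex_congr ex_zero pr_flip
  pr_add_lt per_od pow3_odd pr_le cd_succ pr_iter pb_nonneg od_succ iter_add_le pb_le_one stP rn Di yy PW Gd kk ll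
  kk_le kk_pos kk_tendsto Pq par_Pq reg_of window_PW pb_PW Er2 Er2_tendsto Gd_tendsto pb_mono pb_or pb_affine per_PW
  per_Gd pb_yy rn_Di per_rn pb_per rel_yy rel_nat sw)
open Pool.Agent.J4H26.CC

open Classical in
/-- indicator of a low level, symmetric form -/
noncomputable def lowF (β : ℝ) (t : ℕ) (s : ℤ × ℤ) : ℝ := if s ≠ (0, 0) ∧ |(s.1 : ℝ)| ≤ β * √ (t : ℝ) then 1 else 0

theorem lowF_sw (β : ℝ) (t : ℕ) (s : ℤ × ℤ) : lowF β t (sw s) = lowF β t s := by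
  unfold lowF
  have h : |(((sw s).1 : ℤ) : ℝ)| = |(s.1 : ℝ)| := by unfold sw; simp
  simp only [ne_eq, sw_zero_iff, h]

theorem pb_low (β : ℝ) (t n i : ℕ) (r : ℤ) : pb n (fun x => rn stP n ((i : ℤ), r) x ≠ (0, 0) ∧
    |((rn stP n ((i : ℤ), r) x).1 : ℝ)| ≤ β * √ (t : ℝ)) = it n (lowi β t) (i, r) := by
  have h := it_eq_eF (F := lowF β t) (lowF_sw β t) n i r
  have h2 : it n (fun x => lowF β t ((x.1 : ℤ), x.2)) (i, r) = it n (lowi β t) (i, r) := by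
    apply it_congr
    intro x
    unfold lowF lowi
    have e1 : ((((x.1 : ℕ) : ℤ), x.2) ≠ (0, 0)) ↔ x ≠ (0, 0) := by
      obtain ⟨i, r⟩ := x
      simp only [ne_eq, Prod.mk.injEq, Nat.cast_eq_zero]
    have e2 : |(((x.1 : ℕ) : ℤ) : ℝ)| = (x.1 : ℝ) := by
      push_cast; exact abs_of_nonneg (by positivity)
    simp only [e1, e2]
  rw [← h2, h]
  unfold eF pb
  apply ex_congr
  intro x
  unfold lowF
  congr

theorem kk_small {β : ℝ} (hβ : 0 < β) : ∀ᶠ t : ℕ in atTop, (kk t : ℝ) ≤ β * √ (t : ℝ) := by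
  filter_upwards [kk_tendsto.eventually_ge_atTop ⌈1 / β⌉₊, eventually_ge_atTop 1] with t h1 h2
  have h3 : 1 / β ≤ kk t := Nat.ceil_le.1 h1
  rw [div_le_iff₀ hβ] at h3
  have h4 : ((kk t : ℝ)) ^ 4 ≤ t := by exact_mod_cast kk_le t
  have h5 : ((kk t : ℝ)) ^ 2 ≤ √ (t : ℝ) := by
    apply Real.le_sqrt_of_sq_le
    rw [← pow_mul]; exact h4
  have h6 : (0 : ℝ) ≤ kk t := by positivity
  calc (kk t : ℝ) = kk t * 1 := by ring
    _ ≤ kk t * (kk t * β) := by gcongr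
    _ = β * (kk t : ℝ) ^ 2 := by ring
    _ ≤ β * √ (t : ℝ) := by gcongr

variable {k : ℕ} (a : Fin k → ℕ) (r : Fin k → ℤ)

theorem sgs_eq {i j : Fin k} (hij : i ≠ j) (n M : ℕ) (m : ℤ) :
    sgs a r i j n M m = M - 2 * (cd M (T^[n] (Lf a r i m)) (T^[n] (Lf a r j m)) : ℝ) := by
  induction M with
  | zero => simp [sgs, cd]
  | succ M ih =>
    have h1 : sgs a r i j n (M + 1) m = sgs a r i j n M m + chi a r {i, j} (n + M) m := by
      unfold sgs
      rw [sum_range_succ]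
    rw [h1, ih, cd_succ, pr_iter, pr_iter]
    unfold chi
    rw [prod_pair hij]
    have p1 := pr_le (n + M) (Lf a r i m)
    have p2 := pr_le (n + M) (Lf a r j m)
    unfold sg
    rcases (show pr (n + M) (Lf a r i m) = 0 ∨ pr (n + M) (Lf a r i m) = 1 by omega) with h3 | h3 <;>
    rcases (show pr (n + M) (Lf a r j m) = 0 ∨ pr (n + M) (Lf a r j m) = 1 by omega) with h4 | h4 <;>
    rw [h3, h4] <;> push_cast <;> norm_num <;> ring

theorem Bd_symm (i j : Fin k) (n M : ℕ) (ε : ℝ) (m : ℤ) : Bd a r i j n M ε m ↔ Bd a r j i n M ε m := by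
  unfold Bd sgs
  rw [pair_comm, ne_comm]

/-- the offset between two forms -/
def RR (i j : Fin k) : ℤ := r j - 3 ^ (a j - a i) * r i

theorem Lf_yy {i j : Fin k} (h : a i ≤ a j) (m : ℤ) : Lf a r j m = yy (a j - a i) (RR a r i j) (Lf a r i m) := by
  unfold Lf yy RR
  rw [form_eq h]

theorem RR_bd {c : ℝ} {t : ℕ} (hct : 1 ≤ c * t) {i j : Fin k} (hj : (a j : ℝ) ≤ c * t)
    (h1 : |(r i : ℝ)| ≤ 4 ^ ⌊c * (t : ℝ)⌋₊) (h2 : |(r j : ℝ)| ≤ 4 ^ ⌊c * (t : ℝ)⌋₊) :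
    |RR a r i j| ≤ 4 ^ ⌊3 * c * (t : ℝ)⌋₊ := by
  have h1' : |r i| ≤ 4 ^ ⌊c * (t : ℝ)⌋₊ := by
    have : ((|r i| : ℤ) : ℝ) ≤ ((4 ^ ⌊c * (t : ℝ)⌋₊ : ℤ) : ℝ) := by push_cast; exact h1
    exact_mod_cast this
  have h2' : |r j| ≤ 4 ^ ⌊c * (t : ℝ)⌋₊ := by
    have : ((|r j| : ℤ) : ℝ) ≤ ((4 ^ ⌊c * (t : ℝ)⌋₊ : ℤ) : ℝ) := by push_cast; exact h2
    exact_mod_cast this
  set N := ⌊c * (t : ℝ)⌋₊ with hN
  have hjN : a j ≤ N := Nat.le_floor hj
  have hNN : 2 * N + 1 ≤ ⌊3 * c * (t : ℝ)⌋₊ := by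
    apply Nat.le_floor
    have := Nat.floor_le (show 0 ≤ c * (t : ℝ) by linarith)
    rw [← hN] at this
    push_cast
    linarith
  unfold RR
  have e1 : |r j - 3 ^ (a j - a i) * r i| ≤ |r j| + |3 ^ (a j - a i) * r i| := abs_sub _ _
  have e2 : |(3 : ℤ) ^ (a j - a i) * r i| ≤ 4 ^ N * 4 ^ N := by
    rw [abs_mul, abs_of_pos (by positivity : (0 : ℤ) < 3 ^ (a j - a i))]
    apply mul_le_mul _ h1' (abs_nonneg _) (by positivity)
    calc (3 : ℤ) ^ (a j - a i) ≤ 4 ^ (a j - a i) := pow_le_pow_left₀ (by norm_num) (by norm_num) _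
      _ ≤ 4 ^ N := pow_le_pow_right₀ (by norm_num) (by omega)
  have e3 : (1 : ℤ) ≤ 4 ^ N := one_le_pow₀ (by norm_num)
  calc |r j - 3 ^ (a j - a i) * r i| ≤ 4 ^ N + 4 ^ N * 4 ^ N := e1.trans (add_le_add h2' e2)
    _ ≤ 4 ^ N * 4 ^ N * 4 := by nlinarith
    _ = 4 ^ (2 * N + 1) := by ring
    _ ≤ 4 ^ ⌊3 * c * (t : ℝ)⌋₊ := pow_le_pow_right₀ (by norm_num) hNN

/-- the condition on the forms -/
def Small (c : ℝ) (t : ℕ) : Prop := ∀ i, (a i : ℝ) ≤ c * t ∧ |(r i : ℝ)| ≤ 4 ^ ⌊c * (t : ℝ)⌋₊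

variable {a r} in
theorem Small.mono {c c' : ℝ} {t : ℕ} (h : Small a r c t) (hc : c ≤ c') : Small a r c' t := by
  have h1 : c * (t : ℝ) ≤ c' * t := mul_le_mul_of_nonneg_right hc (by positivity)
  exact fun i => ⟨(h i).1.trans h1, (h i).2.trans (pow_le_pow_right₀ (by norm_num) (Nat.floor_le_floor h1))⟩

/-- bad blocks are rare -/
theorem Bd_small {η κ ε : ℝ} (hη : 0 < η) (hκ : 0 < κ) (hε : 0 < ε) : ∃ c : ℝ, 0 < c ∧ ∀ᶠ t : ℕ in atTop,
    ∀ (k : ℕ) (a : Fin k → ℕ) (r : Fin k → ℤ), Small a r c t → ∀ i j : Fin k, i ≠ j → ∀ n : ℕ, η * t ≤ n →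
      n + kk t ≤ t → pb t (Bd a r i j n (kk t) ε) ≤ κ := by
  obtain ⟨β, hβ, c₁, hc₁, hlow⟩ := low_small hη (κ := κ / 4) (by positivity)
  obtain ⟨η', hη'd⟩ : ∃ η' : ℝ, η' = min η (1 / 100) := ⟨_, rfl⟩
  have hη' : 0 < η' := by rw [hη'd]; positivity
  have hη'1 : η' ≤ 1 / 100 := by rw [hη'd]; exact min_le_right _ _
  have hη'2 : η' ≤ η := by rw [hη'd]; exact min_le_left _ _
  obtain ⟨c, hcd⟩ : ∃ c : ℝ, c = min c₁ (η' / 100) / 3 := ⟨_, rfl⟩
  have hc : 0 < c := by rw [hcd]; positivity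
  have hc1 : 3 * c ≤ c₁ := by rw [hcd]; have := min_le_left c₁ (η' / 100); linarith
  have hc2 : 3 * c ≤ η' / 100 := by rw [hcd]; have := min_le_right c₁ (η' / 100); linarith
  refine ⟨c, hc, ?_⟩
  filter_upwards [hlow, kk_small hβ, (Er2_tendsto hε).eventually (ge_mem_nhds (show (0 : ℝ) < κ / 4 by positivity)),
    (Gd_tendsto (c := η' / 100) (by positivity)).eventually (ge_mem_nhds (show (0 : ℝ) < κ / 4 by positivity)),
    eventually_ge_atTop 1, (tendsto_natCast_atTop_atTop (R := ℝ)).eventually_ge_atTop (100 / η'),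
    (tendsto_natCast_atTop_atTop (R := ℝ)).eventually_ge_atTop (1 / c)] with t b1 b2 b3 b4 b5 b6 b7
  rw [div_le_iff₀ hη'] at b6
  rw [div_le_iff₀ hc] at b7
  have ht1 : (1 : ℝ) ≤ t := by exact_mod_cast b5
  have ht0 : (0 : ℝ) < t := by linarith
  -- the case `a i ≤ a j`
  have half : ∀ (k : ℕ) (a : Fin k → ℕ) (r : Fin k → ℤ), Small a r c t → ∀ i j : Fin k, i ≠ j → a i ≤ a j → ∀ n : ℕ, η * t ≤ n →
      n + kk t ≤ t → pb t (Bd a r i j n (kk t) ε) ≤ κ := by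
    intro k a r hsm i j hij hle n hn hnt
    set D := a j - a i with hD
    set R := RR a r i j with hR
    have hDr : (D : ℝ) ≤ c * t := by
      have : (D : ℝ) ≤ a j := by exact_mod_cast (by omega : D ≤ a j)
      exact this.trans (hsm j).1
    have hRb : |R| ≤ 4 ^ ⌊3 * c * (t : ℝ)⌋₊ := RR_bd a r (by linarith) (hsm j).1 (hsm i).2 (hsm j).2
    have hRr : |(R : ℝ)| ≤ 4 ^ ⌊3 * c * (t : ℝ)⌋₊ := by
      have : ((|R| : ℤ) : ℝ) ≤ ((4 ^ ⌊3 * c * (t : ℝ)⌋₊ : ℤ) : ℝ) := by exact_mod_cast hRb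
      push_cast at this; exact this
    obtain ⟨Q, hQd⟩ : ∃ Q : ℤ → Prop, Q = fun x => Di D R n x ≠ 0 ∧
        ε * (kk t : ℝ) ≤ |(kk t : ℝ) - 2 * (cd (kk t) (T^[n] x) (T^[n] (yy D R x)) : ℝ)| := ⟨_, rfl⟩
    have hBQ : ∀ m, Bd a r i j n (kk t) ε m ↔ Q (3 ^ a i * m + r i) := by
      intro m
      rw [hQd]
      unfold Bd
      rw [sgs_eq a r hij, Lf_yy a r hle]
      have e1 : (AA a r n m i ≠ AA a r n m j) ↔ Di D R n (3 ^ a i * m + r i) ≠ 0 := by
        unfold AA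
        rw [Lf_yy a r hle]
        unfold Di
        rw [← hD, ← hR]
        have e2 : Lf a r i m = 3 ^ a i * m + r i := rfl
        rw [e2]
        have : (D : ℤ) = a j - a i := by rw [hD]; push_cast [hle]; ring
        omega
      rw [e1]
      rfl
    have hQper : Per t Q := by
      intro x u
      have h1 := per_PW D R n (kk t) 0 0
      rw [hQd]
      simp only
      have e4 := Pool.Agent.J4H39.per_Di D R (show n ≤ t by omega) x u
      have e5 : cd (kk t) (T^[n] (x + 2 ^ t * u)) (T^[n] (yy D R (x + 2 ^ t * u))) =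
          cd (kk t) (T^[n] x) (T^[n] (yy D R x)) := by
        have g1 := Pool.Agent.J4H39.cd_add n (kk t) (x + 2 ^ t * u) (yy D R (x + 2 ^ t * u))
        have g2 := Pool.Agent.J4H39.cd_add n (kk t) x (yy D R x)
        rw [Pool.Agent.J4H39.yy_add, Pool.Agent.J4H39.cd_periodic _ hnt, Pool.Agent.J4H39.cd_periodic _ (by omega : n ≤ t)] at g1
        rw [Pool.Agent.J4H39.yy_add]
        omega
      rw [e4, e5]
    have h1 : pb t (Bd a r i j n (kk t) ε) = pb t Q := by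
      rw [Pool.Agent.J4H39.pb_congr hBQ]
      exact pb_affine hQper (pow3_odd (a i)) (r i)
    rw [h1]
    have hu : ((⌊3 * c * (t : ℝ)⌋₊ : ℕ) : ℝ) ≤ η' / 100 * t :=
      (Nat.floor_le (by positivity)).trans (mul_le_mul_of_nonneg_right hc2 ht0.le)
    have PQ := par_Pq hη' hη'1 b5 (by linarith) (i := D) (u := ⌊3 * c * (t : ℝ)⌋₊) (by nlinarith) hu
    set δ := ⌊η' / 100 * (t : ℝ)⌋₊ with hδ
    set s₀ := ⌊η' * (t : ℝ)⌋₊ with hs₀
    have hs₀n : s₀ ≤ n := by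
      have h2 : (s₀ : ℝ) ≤ η' * t := Nat.floor_le (by positivity)
      have h3 : η' * (t : ℝ) ≤ η * t := mul_le_mul_of_nonneg_right hη'2 ht0.le
      exact_mod_cast h2.trans (h3.trans hn)
    set W : ℤ → Prop := fun x => rn stP n ((D : ℤ), R) x ≠ (0, 0) ∧
      |((rn stP n ((D : ℤ), R) x).1 : ℝ)| ≤ β * √ (t : ℝ) with hW
    have hcover : ∀ x, Q x → (¬ Gd t (4 ^ ll t : ℕ) δ x) ∨ (¬ Gd t (4 ^ ll t : ℕ) δ (yy D R x)) ∨
        PW D R n (kk t) (4 ^ ll t) (ε * kk t) x ∨ W x := by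
      intro x hx
      by_cases hx1 : Gd t (4 ^ ll t : ℕ) δ x
      swap
      · exact Or.inl hx1
      by_cases hx2 : Gd t (4 ^ ll t : ℕ) δ (yy D R x)
      swap
      · exact Or.inr (Or.inl hx2)
      by_cases hx3 : PW D R n (kk t) (4 ^ ll t) (ε * kk t) x
      · exact Or.inr (Or.inr (Or.inl hx3))
      right; right; right
      rw [hQd] at hx
      obtain ⟨hx4, hx5⟩ := hx
      refine ⟨fun h0 => ?_, ?_⟩
      · have := rn_Di D R x n
        rw [h0] at this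
        exact hx4 this.symm
      · rw [rn_Di]
        by_contra hcon
        push Not at hcon
        have h5 : (kk t : ℤ) ≤ |Di D R n x| := by
          have : (kk t : ℝ) ≤ |(Di D R n x : ℝ)| := b2.trans hcon.le
          have h6 : (((kk t : ℕ) : ℤ) : ℝ) ≤ ((|Di D R n x| : ℤ) : ℝ) := by push_cast; exact this
          exact_mod_cast h6
        obtain ⟨⟨g1, g2, g3⟩, g4⟩ := reg_of PQ hRb hx1 hx2 hs₀n (show n ≤ t by omega)
        have h6 := window_PW hx3 (by exact_mod_cast g1) (by exact_mod_cast g2) g3 h5 g4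
        rw [abs_sub_comm] at hx5
        linarith
    refine (pb_mono hcover).trans ?_
    have q1 := pb_or t (fun x => ¬ Gd t (4 ^ ll t : ℕ) δ x) (fun x => (¬ Gd t (4 ^ ll t : ℕ) δ (yy D R x)) ∨
        PW D R n (kk t) (4 ^ ll t) (ε * kk t) x ∨ W x)
    have q2 := pb_or t (fun x => ¬ Gd t (4 ^ ll t : ℕ) δ (yy D R x)) (fun x =>
        PW D R n (kk t) (4 ^ ll t) (ε * kk t) x ∨ W x)
    have q3 := pb_or t (PW D R n (kk t) (4 ^ ll t) (ε * kk t)) W
    have g2 : pb t (fun x => ¬ Gd t (4 ^ ll t : ℕ) δ (yy D R x)) = pb t (fun x => ¬ Gd t (4 ^ ll t : ℕ) δ x) :=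
      pb_yy ((per_Gd t (4 ^ ll t) δ).comp (fun p => ¬ p)) D R
    have g3 : pb t (PW D R n (kk t) (4 ^ ll t) (ε * kk t)) ≤ κ / 4 := by
      rw [pb_per hnt (per_PW D R n (kk t) (4 ^ ll t) (ε * kk t))]
      refine (pb_PW D R (Nat.one_le_pow _ _ (by norm_num)) (kk_pos b5) (by positivity)).trans ?_
      refine le_trans ?_ b3
      unfold Er2
      push_cast
      have e1 : (n : ℝ) ≤ t := by exact_mod_cast (by omega : n ≤ t)
      have e2 : 28 * ((n : ℝ) + 1) ^ 2 * (4 ^ ll t : ℝ) ^ 2 * Real.exp (-((ε * kk t) ^ 2 / (2 * kk t))) ≤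
          28 * ((t : ℝ) + 1) ^ 2 * (4 ^ ll t : ℝ) ^ 2 * Real.exp (-((ε * kk t) ^ 2 / (2 * kk t))) := by gcongr
      refine e2.trans ?_
      have e3 : 0 ≤ 28 * ((t : ℝ) + 1) ^ 2 * (4 ^ ll t : ℝ) ^ 2 * Real.exp (-((ε * kk t) ^ 2 / (2 * kk t))) := by positivity
      nlinarith
    have g4 : pb t W ≤ κ / 4 := by
      have hWper : Per n W := by
        intro x u
        rw [hW]
        simp only
        rw [per_rn stP _ (le_refl n) x u]
      rw [pb_per (show n ≤ t by omega) hWper, hW, pb_low]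
      apply b1 n hn D R
      · exact hDr.trans (by nlinarith)
      · refine hRr.trans ?_
        apply pow_le_pow_right₀ (by norm_num)
        apply Nat.floor_le_floor
        exact mul_le_mul_of_nonneg_right hc1 ht0.le
    linarith
  intro k a r hsm i j hij n hn hnt
  rcases le_total (a i) (a j) with h | h
  · exact half k a r hsm i j hij h n hn hnt
  · rw [Pool.Agent.J4H39.pb_congr (Bd_symm a r i j n (kk t) ε)]
    exact half k a r hsm j i hij.symm h n hn hnt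

/-! Order. -/

theorem ex_od (n : ℕ) : ex n (fun x => (od n x : ℝ)) = n / 2 := by
  induction n with
  | zero => rw [ex_zero]; simp [od]
  | succ n ih =>
    rw [ex_succ]
    have e : ∀ x : ℤ, ((od (n + 1) x : ℝ) + od (n + 1) (x + 2 ^ n)) / 2 = (od n x : ℝ) + 1 / 2 := by
      intro x
      rw [od_succ, od_succ, pr_flip]
      have h1 := (iter_add_le (le_refl n) x 1).1
      rw [mul_one] at h1
      rw [h1]
      have h2 := pr_le n x
      push_cast [h2]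
      ring
    rw [ex_congr e, ex_add, ex_const, ih]
    push_cast; ring

theorem ex_AA (n : ℕ) (i : Fin k) : ex n (fun m => (AA a r n m i : ℝ)) = a i + n / 2 := by
  have h1 : ex n (fun m => (AA a r n m i : ℝ)) = ex n (fun m => (a i : ℝ) + (od n (3 ^ a i * m + r i) : ℝ)) := by
    apply ex_congr
    intro m
    unfold AA Lf
    push_cast; rfl
  rw [h1, ex_add, ex_const]
  have hp : Per n (fun x => (od n x : ℝ)) := by
    intro x u
    simp only
    rw [(iter_add_le (le_refl n) x u).1]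
  have h2 := Pool.Agent.J4H39.ex_affine n hp (pow3_odd (a i)) (r i)
  rw [h2, ex_od]

theorem ex_absD {i j : Fin k} (h : a i ≤ a j) (n : ℕ) :
    ex n (fun m => |(AA a r n m j : ℝ) - AA a r n m i|) = al n (a j - a i, RR a r i j) := by
  have h1 := mean_eq h (r i) (r j) n
  unfold RR
  rw [← h1]
  unfold mean ex
  congr 1
  apply sum_congr rfl
  intro m _
  unfold dd AA Lf
  push_cast
  rfl

theorem pow_small {s₀ N : ℕ} (h : 50 * N ≤ s₀) : (49 / 50 : ℝ) ^ s₀ * 2 ^ N ≤ 1 := by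
  have h1 : (49 / 50 : ℝ) ≤ Real.exp (-(1 / 50)) := by
    have := Real.add_one_le_exp (-(1 / 50 : ℝ)); linarith
  have h2 : (2 : ℝ) ≤ Real.exp 1 := by
    have := Real.add_one_le_exp (1 : ℝ); linarith
  calc (49 / 50 : ℝ) ^ s₀ * 2 ^ N ≤ Real.exp (-(1 / 50)) ^ s₀ * Real.exp 1 ^ N := by gcongr
    _ = Real.exp (s₀ * (-(1 / 50)) + N * 1) := by rw [← Real.exp_nat_mul, ← Real.exp_nat_mul, ← Real.exp_add]
    _ ≤ Real.exp 0 := by
      apply Real.exp_le_exp.2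
      have : (50 * (N : ℝ)) ≤ s₀ := by exact_mod_cast h
      linarith
    _ = 1 := Real.exp_zero

/-- the order of the exponents is almost preserved -/
theorem ord_small {η κ β : ℝ} (hη : 0 < η) (hκ : 0 < κ) (hβ : 0 < β) : ∃ c : ℝ, 0 < c ∧ ∀ᶠ t : ℕ in atTop,
    ∀ (k : ℕ) (a : Fin k → ℕ) (r : Fin k → ℤ), Small a r c t → ∀ i j : Fin k, a i ≤ a j → ∀ n : ℕ, η * t ≤ n →
      n ≤ t → pb t (fun m => β * √ (t : ℝ) ≤ (AA a r n m i : ℝ) - AA a r n m j) ≤ κ := by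
  obtain ⟨K, hK, hal⟩ := al_up
  obtain ⟨η₂, hη₂d⟩ : ∃ η₂ : ℝ, η₂ = min η ((κ * β) ^ 2) := ⟨_, rfl⟩
  have hη₂ : 0 < η₂ := by rw [hη₂d]; positivity
  have hη₂1 : η₂ ≤ η := by rw [hη₂d]; exact min_le_left _ _
  have hη₂2 : η₂ ≤ (κ * β) ^ 2 := by rw [hη₂d]; exact min_le_right _ _
  refine ⟨η₂ / 400, by positivity, ?_⟩
  filter_upwards [eventually_ge_atTop 1, (tendsto_natCast_atTop_atTop (R := ℝ)).eventually_ge_atTop (400 / η₂),
    sqrt_lim.eventually_ge_atTop ((K + 1) / (κ * β))] with t b1 b2 b3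
  rw [div_le_iff₀ hη₂] at b2
  rw [div_le_iff₀ (by positivity)] at b3
  have ht1 : (1 : ℝ) ≤ t := by exact_mod_cast b1
  have ht0 : (0 : ℝ) < t := by linarith
  have hst : 0 < √ (t : ℝ) := Real.sqrt_pos.2 ht0
  intro k a r hsm i j hij n hn hnt
  obtain ⟨s₀, hs₀⟩ : ∃ s₀ : ℕ, s₀ = ⌊η₂ * (t : ℝ)⌋₊ := ⟨_, rfl⟩
  have hs₀1 : (s₀ : ℝ) ≤ η₂ * t := by rw [hs₀]; exact Nat.floor_le (by positivity)
  have hs₀2 : η₂ * t < s₀ + 1 := by rw [hs₀]; exact Nat.lt_floor_add_one _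
  have hs₀n : s₀ ≤ n := by
    have : (s₀ : ℝ) ≤ n := hs₀1.trans ((mul_le_mul_of_nonneg_right hη₂1 ht0.le).trans hn)
    exact_mod_cast this
  have hR := RR_bd a r (c := η₂ / 400) (t := t) (by linarith) (hsm j).1 (hsm i).2 (hsm j).2
  have hRr : |(RR a r i j : ℝ)| ≤ 4 ^ ⌊3 * (η₂ / 400) * (t : ℝ)⌋₊ := by
    have : ((|RR a r i j| : ℤ) : ℝ) ≤ ((4 ^ ⌊3 * (η₂ / 400) * (t : ℝ)⌋₊ : ℤ) : ℝ) := by exact_mod_cast hR
    push_cast at this; exact this
  have h1 := hal n s₀ (a j - a i) (RR a r i j) hs₀n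
  have h2 := pw_up (i := a j - a i) hRr
  have h3 : (49 / 50 : ℝ) ^ s₀ * pw (a j - a i, RR a r i j) ≤ 1 := by
    refine le_trans (mul_le_mul_of_nonneg_left h2 (by positivity)) (pow_small ?_)
    have h4 : ((⌊3 * (η₂ / 400) * (t : ℝ)⌋₊ : ℕ) : ℝ) ≤ 3 * (η₂ / 400) * t := Nat.floor_le (by positivity)
    have h5 : (50 * (⌊3 * (η₂ / 400) * (t : ℝ)⌋₊ : ℕ) : ℝ) ≤ s₀ := by linarith
    exact_mod_cast h5
  have h4 := ex_absD a r hij n
  have h5 := ex_AA a r n i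
  have h6 := ex_AA a r n j
  -- the negative part
  have h7 : ex n (fun m => (|(AA a r n m j : ℝ) - AA a r n m i| + (AA a r n m i + (-1) * (AA a r n m j : ℝ))) ) =
      al n (a j - a i, RR a r i j) - ((a j : ℝ) - a i) := by
    rw [ex_add, ex_add, ex_mul, h4, h5, h6]; ring
  have hcast : ((a j - a i : ℕ) : ℝ) = (a j : ℝ) - a i := by push_cast [hij]; ring
  rw [hcast] at h1
  have h8 : ex n (fun m => (|(AA a r n m j : ℝ) - AA a r n m i| + (AA a r n m i + (-1) * (AA a r n m j : ℝ)))) ≤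
      √ (s₀ : ℝ) + 1 + K := by rw [h7]; linarith
  have hper : Per n (fun m => β * √ (t : ℝ) ≤ (AA a r n m i : ℝ) - AA a r n m j) := by
    intro m u
    simp only
    rw [per_AA a r (le_refl n) m u]
  rw [pb_per hnt hper]
  have h9 := Pool.Agent.J4H39.pb_markov (j := n) (f := fun m => (|(AA a r n m j : ℝ) - AA a r n m i| +
    (AA a r n m i + (-1) * (AA a r n m j : ℝ)))) (fun m => by
      have := neg_abs_le ((AA a r n m j : ℝ) - AA a r n m i)
      have := le_abs_self ((AA a r n m j : ℝ) - AA a r n m i)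
      linarith) (c := 2 * (β * √ (t : ℝ))) (by positivity)
  have h10 : pb n (fun m => β * √ (t : ℝ) ≤ (AA a r n m i : ℝ) - AA a r n m j) ≤
      pb n (fun m => 2 * (β * √ (t : ℝ)) ≤ (|(AA a r n m j : ℝ) - AA a r n m i| +
        (AA a r n m i + (-1) * (AA a r n m j : ℝ)))) := by
    apply pb_mono
    intro m hm
    have := neg_le_abs ((AA a r n m j : ℝ) - AA a r n m i)
    linarith
  refine h10.trans (h9.trans ?_)
  rw [div_le_iff₀ (by positivity)]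
  have h11 : √ (s₀ : ℝ) ≤ κ * β * √ (t : ℝ) := by
    rw [Real.sqrt_le_left (by positivity), mul_pow, Real.sq_sqrt ht0.le]
    exact hs₀1.trans (mul_le_mul_of_nonneg_right hη₂2 ht0.le)
  have e7 : κ * (2 * (β * √ (t : ℝ))) = κ * β * √ (t : ℝ) + √ (t : ℝ) * (κ * β) := by ring
  rw [e7]
  linarith

end Pool.Agent.J4H26.AF
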