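import Mathlib
import Pool.Agent.J4H26.AF.Pair

set_option autoImplicit false

/-! The law of the exponents of several linear forms. -/

namespace Pool.Agent.J4H26.AF

open Finset Filter Topology
open Pool.Agent.J4H39 (T od pr cd Per ex pb ex_succ ex_per ex_add ex_mul ex_sum ex_const ex_mono ex_congr ex_zero pr_flip
  pr_add_lt per_od pow3_odd pr_le cd_succ pr_iter pb_nonneg od_succ iter_add_le pb_le_one kk
  kk_le kk_pos kk_tendsto pb_mono pb_or pb_affine pb_per pb_exists pb_od ex_tower T_add)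
open Pool.Agent.J4H26.CC

/-- a fixed class -/
theorem det_case {k : ℕ} {s₁ s₂ : ℕ} (hs : 1 ≤ s₁) (hs12 : s₁ ≤ s₂) {y z x : Fin k → ℤ} (hy : Monotone y) {n Gp : ℕ} {K : ℝ}
    (hK : 0 < K) (h1 : ∀ i j, i ≤ j → z i ≤ z j + n) (h2 : ∀ i j, (Gp : ℤ) ≤ |2 * (y j - z i) - s₂|)
    (hG : K * √ (s₂ : ℝ) + 2 * n ≤ Gp) (h3 : ∀ i, |(2 * ((x i - z i : ℤ) : ℝ)) - s₂| < K * √ (s₂ : ℝ)) :
    |Phi y s₂ z - if ∀ i, x i ≤ y i then 1 else 0| ≤ k.factorial * (k * (2 * n * hh s₁)) + k.factorial * (k * (1 / K ^ 2)) := by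
  classical
  -- the running maximum
  obtain ⟨z', hz'⟩ : ∃ z' : Fin k → ℤ, z' = fun i => (Finset.Iic i).sup' ⟨i, by simp⟩ z := ⟨_, rfl⟩
  have hmono : Monotone z' := by
    intro i j hij
    rw [hz']
    apply Finset.sup'_mono
    intro l hl
    rw [mem_Iic] at hl ⊢
    exact hl.trans hij
  have hle : ∀ i, z i ≤ z' i := by
    intro i
    rw [hz']
    exact Finset.le_sup' z (by simp : i ∈ Iic i)
  have hup : ∀ i, z' i ≤ z i + n := by
    intro i
    rw [hz']
    apply Finset.sup'_le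
    intro l hl
    rw [mem_Iic] at hl
    exact h1 l i hl
  have hn : ∀ i, |z i - z' i| ≤ n := by
    intro i
    have := hle i; have := hup i
    rw [abs_le]; constructor <;> omega
  have hs2 : 1 ≤ s₂ := hs.trans hs12
  have hK0 : 0 ≤ K * √ (s₂ : ℝ) := by positivity
  have h4 : ∀ i j, K * √ (s₂ : ℝ) ≤ |2 * ((y j - z' i : ℤ) : ℝ) - s₂| := by
    intro i j
    have g1 := h2 i j
    have g2 := hle i
    have g3 := hup i
    have g4 : (Gp : ℤ) - 2 * n ≤ |2 * (y j - z' i) - s₂| := by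
      rcases abs_cases (2 * (y j - z i) - (s₂ : ℤ)) with ⟨e, _⟩ | ⟨e, _⟩ <;>
      rcases abs_cases (2 * (y j - z' i) - (s₂ : ℤ)) with ⟨e', _⟩ | ⟨e', _⟩ <;> omega
    have g5 : ((Gp : ℤ) : ℝ) - 2 * n ≤ ((|2 * (y j - z' i) - s₂| : ℤ) : ℝ) := by exact_mod_cast g4
    push_cast at g5 ⊢
    linarith
  have h5 := Phi_lip hs y hs12 z z' hn
  have h6 := Phi_sorted hmono hy hs2 hK h4
  have hcond : (∀ i, (s₂ : ℝ) ≤ 2 * ((y i - z' i : ℤ) : ℝ)) ↔ ∀ i, x i ≤ y i := by
    apply forall_congr'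
    intro i
    have g1 := h2 i i
    have g2 := hle i
    have g3 := hup i
    have g4 := h3 i
    have hGn : K * √ (s₂ : ℝ) ≤ (Gp : ℝ) := by
      have : (0 : ℝ) ≤ n := by positivity
      linarith
    have g5 : |2 * (x i - z i) - s₂| < (Gp : ℤ) := by
      have : ((|2 * (x i - z i) - s₂| : ℤ) : ℝ) < ((Gp : ℤ) : ℝ) := by
        push_cast; push_cast at g4; linarith
      exact_mod_cast this
    have g6 : 2 * (n : ℤ) ≤ Gp := by
      have : 2 * (n : ℝ) ≤ Gp := by linarith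
      exact_mod_cast this
    have e1 : ((s₂ : ℝ) ≤ 2 * ((y i - z' i : ℤ) : ℝ)) ↔ (s₂ : ℤ) ≤ 2 * (y i - z' i) := by
      constructor
      · intro h; exact_mod_cast h
      · intro h; exact_mod_cast h
    rw [e1]
    rcases abs_cases (2 * (y i - z i) - (s₂ : ℤ)) with ⟨e, _⟩ | ⟨e, _⟩ <;>
    rcases abs_cases (2 * (x i - z i) - (s₂ : ℤ)) with ⟨e', _⟩ | ⟨e', _⟩ <;> constructor <;> intro h <;> omega
  have e2 : (if ∀ i, (s₂ : ℝ) ≤ 2 * ((y i - z' i : ℤ) : ℝ) then (1 : ℝ) else 0) = if ∀ i, x i ≤ y i then 1 else 0 := by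
    simp only [hcond]
  rw [e2] at h6
  calc |Phi y s₂ z - if ∀ i, x i ≤ y i then 1 else 0| =
        |(Phi y s₂ z - Phi y s₂ z') + (Phi y s₂ z' - if ∀ i, x i ≤ y i then 1 else 0)| := by congr 1; ring
    _ ≤ _ := (abs_add_le _ _).trans (add_le_add h5 h6)

theorem pb_dec {n : ℕ} {P : ℤ → Prop} [DecidablePred P] : pb n P = ex n (fun x => if P x then (1 : ℝ) else 0) := by
  unfold pb
  congr!

/-- the law of the number of odd terms -/
theorem pb_od_eq (n : ℕ) : ∀ d : ℤ, pb n (fun x => (od n x : ℤ) = d) = pm n d := by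
  induction n with
  | zero =>
    intro d
    rw [pb_dec, ex_zero, pm_zero]
    simp only [od, Nat.cast_zero]
    by_cases h : d = 0
    · rw [if_pos h.symm, if_pos h]
    · rw [if_neg (Ne.symm h), if_neg h]
  | succ n ih =>
    intro d
    have h1 : pb (n + 1) (fun x => (od (n + 1) x : ℤ) = d) =
        ex n (fun x => (1 / 2) * (if (od n x : ℤ) = d then (1 : ℝ) else 0) + (1 / 2) * (if (od n x : ℤ) = d - 1 then (1 : ℝ) else 0)) := by
      rw [pb_dec, ex_succ]
      apply ex_congr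
      intro x
      have h2 := (iter_add_le (le_refl n) x 1).1
      rw [mul_one] at h2
      rw [od_succ, od_succ, pr_flip, h2]
      have h3 := pr_le n x
      rcases (show pr n x = 0 ∨ pr n x = 1 by omega) with h4 | h4
      · rw [h4]
        have e1 : ((od n x + 0 : ℕ) : ℤ) = d ↔ (od n x : ℤ) = d := by simp
        have e2 : ((od n x + (1 - 0) : ℕ) : ℤ) = d ↔ (od n x : ℤ) = d - 1 := by push_cast; omega
        simp only [e1, e2]
        ring
      · rw [h4]
        have e1 : ((od n x + (1 - 1) : ℕ) : ℤ) = d ↔ (od n x : ℤ) = d := by simp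
        have e2 : ((od n x + 1 : ℕ) : ℤ) = d ↔ (od n x : ℤ) = d - 1 := by push_cast; omega
        simp only [e1, e2]
        ring
    rw [h1, ex_add, ex_mul, ex_mul, pm_succ]
    have i1 := ih d
    have i2 := ih (d - 1)
    rw [pb_dec] at i1 i2
    rw [i1, i2]
    ring

/-- a uniform increment -/
theorem pb_incr {k : ℕ} (a : Fin k → ℕ) (r : Fin k → ℤ) (i : Fin k) (n s : ℕ) {Q : ℤ → Prop} (hQ : Per s Q) :
    pb (n + s) (fun m => Q (T^[n] (Lf a r i m))) = pb s Q := by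
  classical
  rw [pb_dec, pb_dec, ex_tower]
  have e : ∀ m : ℤ, ex s (fun u => if Q (T^[n] (Lf a r i (m + 2 ^ n * u))) then (1 : ℝ) else 0) =
      ex s (fun x => if Q x then (1 : ℝ) else 0) := by
    intro m
    have h1 : ∀ u : ℤ, T^[n] (Lf a r i (m + 2 ^ n * u)) = 3 ^ (od n (Lf a r i m) + a i) * u + T^[n] (Lf a r i m) := by
      intro u
      rw [Lf_add, T_add, pow_add]; ring
    simp only [h1]
    have hper : Per s (fun x => if Q x then (1 : ℝ) else 0) := by
      intro x u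
      simp only [hQ x u]
    exact Pool.Agent.J4H39.ex_affine s hper (pow3_odd _) _
  rw [ex_congr e, ex_const]

section

variable {k : ℕ} (a : Fin k → ℕ) (r : Fin k → ℤ) (y : Fin k → ℤ)

/-- the thresholds are avoided -/
theorem near_small {n : ℕ} (hn : 1 ≤ n) (i j : Fin k) (s₂ Gp : ℕ) :
    pb n (fun m => |2 * (y j - AA a r n m i) - s₂| < (Gp : ℤ)) ≤ (Gp + 2) * (1 / √ (n : ℝ)) := by
  classical
  set S : Finset ℤ := Finset.Icc (y j - ((s₂ : ℤ) + Gp) / 2 - a i) (y j - ((s₂ : ℤ) - Gp) / 2 - a i) with hS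
  have h1 : pb n (fun m => |2 * (y j - AA a r n m i) - s₂| < (Gp : ℤ)) ≤
      pb n (fun m => ∃ d ∈ S, (od n (3 ^ a i * m + r i) : ℤ) = d) := by
    apply pb_mono
    intro m hm
    refine ⟨_, ?_, rfl⟩
    unfold AA Lf at hm
    rw [hS, mem_Icc]
    rw [abs_lt] at hm
    constructor <;> omega
  refine h1.trans ((pb_exists _ _ _).trans ?_)
  have h2 : ∀ d ∈ S, pb n (fun m => (od n (3 ^ a i * m + r i) : ℤ) = d) ≤ 1 / √ (n : ℝ) := by
    intro d _
    have hp : Per n (fun x => (od n x : ℤ) = d) := by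
      intro x u
      simp only
      rw [(iter_add_le (le_refl n) x u).1]
    have h3 := pb_affine hp (pow3_odd (a i)) (r i)
    rw [h3, pb_od_eq]
    exact pm_le hn d
  refine (sum_le_sum h2).trans ?_
  rw [sum_const, nsmul_eq_mul]
  apply mul_le_mul_of_nonneg_right _ (by positivity)
  have h4 : #S ≤ Gp + 2 := by
    rw [hS, Int.card_Icc]
    omega
  exact_mod_cast h4

/-- the comparison at the end -/
theorem end_cmp {t n₁ s₁ s₂ n Gp : ℕ} (hs : 1 ≤ s₁) (hs12 : s₁ ≤ s₂) (ht : n₁ + s₂ = t) (hn₁ : 1 ≤ n₁)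
    (ha : Monotone a) (hy : Monotone y) {K κ β : ℝ} (hK : 0 < K) (hG : K * √ (s₂ : ℝ) + 2 * n ≤ Gp)
    (hn : β * √ (t : ℝ) ≤ n)
    (hord : ∀ i j : Fin k, a i ≤ a j → pb t (fun m => β * √ (t : ℝ) ≤ (AA a r n₁ m i : ℝ) - AA a r n₁ m j) ≤ κ) :
    |pb t (fun m => ∀ i, AA a r t m i ≤ y i) - EE a r y t n₁| ≤
      k.factorial * (k * (2 * n * hh s₁)) + k.factorial * (k * (1 / K ^ 2)) +
        (k.factorial + 1) * (k * (k * κ) + k * (k * ((Gp + 2) * (1 / √ (n₁ : ℝ)))) + k * (2 * Real.exp (-(K ^ 2 / 2)))) := by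
  classical
  have hs2 : 1 ≤ s₂ := hs.trans hs12
  have hs20 : (0 : ℝ) < s₂ := by exact_mod_cast hs2
  -- bad events
  set B1 : ℤ → Prop := fun m => ∃ i ∈ (univ : Finset (Fin k)), ∃ j ∈ (univ : Finset (Fin k)),
    a i ≤ a j ∧ β * √ (t : ℝ) ≤ (AA a r n₁ m i : ℝ) - AA a r n₁ m j with hB1
  set B2 : ℤ → Prop := fun m => ∃ i ∈ (univ : Finset (Fin k)), ∃ j ∈ (univ : Finset (Fin k)),
    |2 * (y j - AA a r n₁ m i) - s₂| < (Gp : ℤ) with hB2
  set B3 : ℤ → Prop := fun m => ∃ i ∈ (univ : Finset (Fin k)), K * √ (s₂ : ℝ) ≤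
    |2 * (od s₂ (T^[n₁] (Lf a r i m)) : ℝ) - s₂| with hB3
  have p1 : pb t B1 ≤ k * (k * κ) := by
    refine (pb_exists _ _ _).trans ?_
    have : ∀ i ∈ (univ : Finset (Fin k)), pb t (fun m => ∃ j ∈ (univ : Finset (Fin k)),
        a i ≤ a j ∧ β * √ (t : ℝ) ≤ (AA a r n₁ m i : ℝ) - AA a r n₁ m j) ≤ k * κ := by
      intro i _
      refine (pb_exists _ _ _).trans ?_
      have h2 : ∀ j ∈ (univ : Finset (Fin k)), pb t (fun m =>
          a i ≤ a j ∧ β * √ (t : ℝ) ≤ (AA a r n₁ m i : ℝ) - AA a r n₁ m j) ≤ κ := by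
        intro j _
        by_cases hij : a i ≤ a j
        · exact (pb_mono fun m hm => hm.2).trans (hord i j hij)
        · have h3 : pb t (fun m => a i ≤ a j ∧ β * √ (t : ℝ) ≤ (AA a r n₁ m i : ℝ) - AA a r n₁ m j) ≤
              pb t (fun m => β * √ (t : ℝ) ≤ (AA a r n₁ m i : ℝ) - AA a r n₁ m i) :=
            pb_mono fun m hm => absurd hm.1 hij
          exact h3.trans (hord i i le_rfl)
      refine (sum_le_sum h2).trans (le_of_eq ?_)
      rw [sum_const, card_univ, Fintype.card_fin, nsmul_eq_mul]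
    refine (sum_le_sum this).trans (le_of_eq ?_)
    rw [sum_const, card_univ, Fintype.card_fin, nsmul_eq_mul]
  have p2 : pb t B2 ≤ k * (k * ((Gp + 2) * (1 / √ (n₁ : ℝ)))) := by
    refine (pb_exists _ _ _).trans ?_
    have : ∀ i ∈ (univ : Finset (Fin k)), pb t (fun m => ∃ j ∈ (univ : Finset (Fin k)),
        |2 * (y j - AA a r n₁ m i) - s₂| < (Gp : ℤ)) ≤ k * ((Gp + 2) * (1 / √ (n₁ : ℝ))) := by
      intro i _
      refine (pb_exists _ _ _).trans ?_
      have h2 : ∀ j ∈ (univ : Finset (Fin k)), pb t (fun m => |2 * (y j - AA a r n₁ m i) - s₂| < (Gp : ℤ)) ≤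
          (Gp + 2) * (1 / √ (n₁ : ℝ)) := by
        intro j _
        have hper : Per n₁ (fun m => |2 * (y j - AA a r n₁ m i) - s₂| < (Gp : ℤ)) := by
          intro m u
          simp only
          rw [per_AA a r (le_refl n₁) m u]
        rw [pb_per (show n₁ ≤ t by omega) hper]
        exact near_small a r y hn₁ i j s₂ Gp
      refine (sum_le_sum h2).trans (le_of_eq ?_)
      rw [sum_const, card_univ, Fintype.card_fin, nsmul_eq_mul]
    refine (sum_le_sum this).trans (le_of_eq ?_)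
    rw [sum_const, card_univ, Fintype.card_fin, nsmul_eq_mul]
  have p3 : pb t B3 ≤ k * (2 * Real.exp (-(K ^ 2 / 2))) := by
    refine (pb_exists _ _ _).trans ?_
    have : ∀ i ∈ (univ : Finset (Fin k)), pb t (fun m => K * √ (s₂ : ℝ) ≤
        |2 * (od s₂ (T^[n₁] (Lf a r i m)) : ℝ) - s₂|) ≤ 2 * Real.exp (-(K ^ 2 / 2)) := by
      intro i _
      have hper : Per s₂ (fun x => K * √ (s₂ : ℝ) ≤ |2 * (od s₂ x : ℝ) - s₂|) := by
        intro x u
        simp only
        rw [(iter_add_le (le_refl s₂) x u).1]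
      have h2 := pb_incr a r i n₁ s₂ hper
      rw [ht] at h2
      rw [h2]
      refine (pb_od hs2 (by positivity)).trans (le_of_eq ?_)
      congr 2
      rw [mul_pow, Real.sq_sqrt hs20.le]
      field_simp
    refine (sum_le_sum this).trans (le_of_eq ?_)
    rw [sum_const, card_univ, Fintype.card_fin, nsmul_eq_mul]
  set E0 : ℝ := k.factorial * (k * (2 * n * hh s₁)) + k.factorial * (k * (1 / K ^ 2)) with hE0
  have hE0p : 0 ≤ E0 := by
    have := hh_nonneg s₁
    rw [hE0]; positivity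
  have hpt : ∀ m, |(if ∀ i, AA a r t m i ≤ y i then (1 : ℝ) else 0) - Phi y s₂ (AA a r n₁ m)| ≤
      E0 + (k.factorial + 1) * (if B1 m ∨ B2 m ∨ B3 m then (1 : ℝ) else 0) := by
    intro m
    by_cases hb : B1 m ∨ B2 m ∨ B3 m
    · rw [if_pos hb, mul_one]
      have h1 := Phi_bd y s₂ (AA a r n₁ m)
      refine (abs_sub _ _).trans ?_
      have h2 : |(if ∀ i, AA a r t m i ≤ y i then (1 : ℝ) else 0)| ≤ 1 := by split_ifs <;> norm_num
      linarith
    · rw [if_neg hb, mul_zero, add_zero]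
      push Not at hb
      obtain ⟨c1, c2, c3⟩ := hb
      rw [hB1] at c1
      rw [hB2] at c2
      rw [hB3] at c3
      push Not at c1 c2 c3
      rw [abs_sub_comm]
      apply det_case hs hs12 hy hK (n := n) (Gp := Gp)
      · intro i j hij
        have := c1 i (mem_univ _) j (mem_univ _) (ha hij)
        have h2 : (AA a r n₁ m i : ℝ) < AA a r n₁ m j + n := by linarith
        exact_mod_cast h2.le
      · intro i j
        exact c2 i (mem_univ _) j (mem_univ _)
      · exact hG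
      · intro i
        have h2 := c3 i (mem_univ _)
        have e : AA a r t m i - AA a r n₁ m i = od s₂ (T^[n₁] (Lf a r i m)) := by
          unfold AA
          rw [← ht, Pool.Agent.J4H39.od_comp]
          push_cast; ring
        rw [e]
        exact_mod_cast h2
  have hEE : EE a r y t n₁ = ex t (fun m => Phi y s₂ (AA a r n₁ m)) := by
    unfold EE
    rw [show t - n₁ = s₂ by omega]
    exact (ex_per (show n₁ ≤ t by omega) ((per_AA a r (le_refl n₁)).comp _)).symm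
  have h1 : pb t (fun m => ∀ i, AA a r t m i ≤ y i) - EE a r y t n₁ =
      ex t (fun m => (if ∀ i, AA a r t m i ≤ y i then (1 : ℝ) else 0) - Phi y s₂ (AA a r n₁ m)) := by
    rw [hEE]
    unfold pb
    have e : ∀ m : ℤ, (if ∀ i, AA a r t m i ≤ y i then (1 : ℝ) else 0) - Phi y s₂ (AA a r n₁ m) =
        (if ∀ i, AA a r t m i ≤ y i then (1 : ℝ) else 0) + (-1) * Phi y s₂ (AA a r n₁ m) := by intro m; ring
    rw [ex_congr e, ex_add, ex_mul]
    have e2 : ex t (fun x => if ∀ i, AA a r t x i ≤ y i then (1 : ℝ) else 0) =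
        ex t (fun m => if ∀ i, AA a r t m i ≤ y i then (1 : ℝ) else 0) := rfl
    rw [sub_eq_add_neg, neg_one_mul]
    congr 1
    congr!
  rw [h1]
  refine (ex_abs hpt).trans ?_
  rw [ex_add, ex_const, ex_mul]
  have h2 : ex t (fun m => if B1 m ∨ B2 m ∨ B3 m then (1 : ℝ) else 0) = pb t (fun m => B1 m ∨ B2 m ∨ B3 m) := by
    unfold pb
    congr!
  rw [h2]
  have h3 := pb_or t B1 (fun m => B2 m ∨ B3 m)
  have h4 := pb_or t B2 B3
  have h5 : pb t (fun m => B1 m ∨ B2 m ∨ B3 m) ≤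
      k * (k * κ) + k * (k * ((Gp + 2) * (1 / √ (n₁ : ℝ)))) + k * (2 * Real.exp (-(K ^ 2 / 2))) := by linarith
  have h6 : (0 : ℝ) ≤ (k.factorial : ℝ) + 1 := by positivity
  have := mul_le_mul_of_nonneg_left h5 h6
  linarith

end

end Pool.Agent.J4H26.AF
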