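import Mathlib
import Pool.Agent.J4H26.AF.Fin

set_option autoImplicit false

/-! The law of the exponents of several linear forms: choice of the parameters. -/

namespace Pool.Agent.J4H26.AF

open Finset Filter Topology
open Pool.Agent.J4H39 (T od Per ex pb ex_zero kk kk_pos pb_nonneg)
open Pool.Agent.J4H26.CC

theorem EE_zero {k : ℕ} (a : Fin k → ℕ) (r y : Fin k → ℤ) (t : ℕ) : EE a r y t 0 = Phi y t (fun i => (a i : ℤ)) := by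
  unfold EE
  rw [ex_zero]
  rfl

/-- numerical facts -/
theorem scales {g : ℝ} (hg : 0 < g) (hg1 : g ≤ 1 / 2) {t s₁ n₁ : ℕ} (hs₁ : s₁ = ⌊g ^ 2 * (t : ℝ)⌋₊)
    (ht : 100 ≤ g ^ 2 * (t : ℝ)) (hn₁ : n₁ + (s₁ + 1) = t) :
    9 ≤ s₁ ∧ hh s₁ ^ 2 ≤ 18 / (g ^ 2 * t) ∧ hh s₁ ≤ 5 / (g * √ (t : ℝ)) ∧ √ ((s₁ + 1 : ℕ) : ℝ) ≤ 3 / 2 * (g * √ (t : ℝ)) ∧
      1 / √ (n₁ : ℝ) ≤ 3 / 2 / √ (t : ℝ) ∧ 1 ≤ n₁ ∧ hh s₁ ≤ 1 := by
  have hg2 : 0 < g ^ 2 := by positivity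
  have ht0 : (0 : ℝ) < t := by
    by_contra hcon
    push Not at hcon
    nlinarith
  have h1 : (s₁ : ℝ) ≤ g ^ 2 * t := by rw [hs₁]; exact Nat.floor_le (by positivity)
  have h2 : g ^ 2 * (t : ℝ) < s₁ + 1 := by rw [hs₁]; exact Nat.lt_floor_add_one _
  have h3 : (9 : ℝ) ≤ s₁ := by linarith
  have h3n : 9 ≤ s₁ := by exact_mod_cast h3
  have hs0 : (0 : ℝ) < s₁ := by linarith
  have h4 : hh s₁ ^ 2 ≤ 18 / (g ^ 2 * t) := by
    rw [hh_sq (by omega), div_le_div_iff₀ hs0 (by positivity)]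
    linarith
  have hst : 0 < √ (t : ℝ) := Real.sqrt_pos.2 ht0
  have hst2 : √ (t : ℝ) ^ 2 = t := Real.sq_sqrt ht0.le
  have hg14 : g ^ 2 ≤ 1 / 4 := by nlinarith
  have hn₁r : (n₁ : ℝ) + (s₁ + 1) = t := by exact_mod_cast hn₁
  have hgt : g ^ 2 * (t : ℝ) ≤ 1 / 4 * t := mul_le_mul_of_nonneg_right hg14 ht0.le
  have hn₁1 : (t : ℝ) / 2 ≤ n₁ := by linarith
  have hn₁0 : (0 : ℝ) < n₁ := by linarith
  have h5 : hh s₁ ≤ 5 / (g * √ (t : ℝ)) := by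
    apply le_of_sq_le_sq _ (by positivity)
    refine h4.trans ?_
    rw [div_pow, mul_pow, hst2]
    gcongr
    norm_num
  refine ⟨h3n, h4, h5, ?_, ?_, ?_, ?_⟩
  · rw [Real.sqrt_le_left (by positivity), mul_pow, mul_pow, hst2]
    push_cast
    linarith
  · rw [div_le_div_iff₀ (Real.sqrt_pos.2 hn₁0) hst, one_mul]
    have h6 : √ (t : ℝ) ≤ √ ((3 / 2) ^ 2 * (n₁ : ℝ)) := Real.sqrt_le_sqrt (by linarith)
    rwa [Real.sqrt_mul (by positivity), Real.sqrt_sq (by norm_num)] at h6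
  · have : (0 : ℝ) < n₁ := hn₁0
    exact_mod_cast this
  · unfold hh
    have h6 : (3 : ℝ) ≤ √ (s₁ : ℝ) := Real.le_sqrt_of_sq_le (by linarith)
    rw [div_le_one (by linarith)]
    exact h6

/-- **The law of the exponents of several linear forms.** -/
theorem main_law (k : ℕ) {ε : ℝ} (hε : 0 < ε) : ∃ c : ℝ, 0 < c ∧ ∀ᶠ t : ℕ in atTop,
    ∀ (a : Fin k → ℕ) (r : Fin k → ℤ), Monotone a → Small a r c t → ∀ y : Fin k → ℤ, Monotone y →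
      |pb t (fun m => ∀ i, AA a r t m i ≤ y i) - Phi y t (fun i => (a i : ℤ))| ≤ ε := by
  -- constants
  obtain ⟨F, hF⟩ : ∃ F : ℝ, F = (k.factorial : ℝ) := ⟨_, rfl⟩
  obtain ⟨Q, hQ⟩ : ∃ Q : ℝ, Q = (2 : ℝ) ^ k := ⟨_, rfl⟩
  obtain ⟨X, hX⟩ : ∃ X : ℝ, X = (F + 1) * ((k : ℝ) + 1) ^ 2 := ⟨_, rfl⟩
  have hF1 : 1 ≤ F := by rw [hF]; exact_mod_cast Nat.factorial_pos k
  have hQ1 : 1 ≤ Q := by rw [hQ]; exact one_le_pow₀ (by norm_num)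
  have hk0 : (0 : ℝ) ≤ k := by positivity
  have hX1 : 1 ≤ X := by rw [hX]; nlinarith
  have hFk : F * k ≤ X := by rw [hX]; nlinarith
  have hFkk : (F + 1) * (k * k) ≤ X := by rw [hX]; nlinarith
  have hFk1 : (F + 1) * k ≤ X := by rw [hX]; nlinarith
  obtain ⟨K, hK1, hK2⟩ : ∃ K : ℝ, 1 ≤ K ∧ 64 * X / ε ≤ K ^ 2 := by
    refine ⟨64 * X / ε + 1, ?_, ?_⟩
    · have : 0 ≤ 64 * X / ε := by positivity
      linarith
    · have : 0 ≤ 64 * X / ε := by positivity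
      nlinarith
  have hK0 : 0 < K := by linarith
  obtain ⟨g, hgd⟩ : ∃ g : ℝ, g = min (1 / 2) (ε / (256 * X * K)) := ⟨_, rfl⟩
  have hg : 0 < g := by rw [hgd]; positivity
  have hg1 : g ≤ 1 / 2 := by rw [hgd]; exact min_le_left _ _
  have hg2 : X * K * g ≤ ε / 256 := by
    have : g ≤ ε / (256 * X * K) := by rw [hgd]; exact min_le_right _ _
    rw [le_div_iff₀ (by positivity)] at this
    linarith
  obtain ⟨β, hβd⟩ : ∃ β : ℝ, β = g * ε / (160 * X) := ⟨_, rfl⟩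
  have hβ : 0 < β := by rw [hβd]; positivity
  have hβ1 : 20 * X * β ≤ g * ε / 8 := by rw [hβd]; apply le_of_eq; field_simp; ring
  obtain ⟨θ, hθd⟩ : ∃ θ : ℝ, θ = g ^ 2 * ε / (576 * Q * F) := ⟨_, rfl⟩
  have hθ : 0 < θ := by rw [hθd]; positivity
  obtain ⟨β₂, hβ₂d⟩ : ∃ β₂ : ℝ, β₂ = min (ε * g ^ 3 / (2880 * Q * X)) (θ / 4) := ⟨_, rfl⟩
  have hβ₂ : 0 < β₂ := by rw [hβ₂d]; positivity
  have hβ₂1 : β₂ ≤ ε * g ^ 3 / (2880 * Q * X) := by rw [hβ₂d]; exact min_le_left _ _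
  have hβ₂2 : β₂ ≤ θ / 4 := by rw [hβ₂d]; exact min_le_right _ _
  obtain ⟨c₁, hc₁, hbad⟩ := Bd_small hθ hθ hθ
  obtain ⟨c₂, hc₂, hord⟩ := ord_small (η := 1 / 2) (κ := ε / (8 * X)) (β := β) (by norm_num) (by positivity) hβ
  refine ⟨min c₁ c₂, by positivity, ?_⟩
  filter_upwards [hbad, hord, kk_small hβ₂, eventually_ge_atTop 1,
    (tendsto_natCast_atTop_atTop (R := ℝ)).eventually_ge_atTop (100 / g ^ 2),
    (tendsto_natCast_atTop_atTop (R := ℝ)).eventually_ge_atTop (2 / θ),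
    (tendsto_natCast_atTop_atTop (R := ℝ)).eventually_ge_atTop (324 * Q * F * 16 / (g ^ 4 * ε)),
    sqrt_lim.eventually_ge_atTop (1 / β), sqrt_lim.eventually_ge_atTop (9 / 2 * X * 64 / ε)] with t b1 b2 b3 b4 b5 b6 b7 b8 b9
  intro a r ha hsm y hy
  rw [div_le_iff₀ (by positivity)] at b5 b6 b7 b8 b9
  have ht1 : (1 : ℝ) ≤ t := by exact_mod_cast b4
  have ht0 : (0 : ℝ) < t := by linarith
  have hst : 0 < √ (t : ℝ) := Real.sqrt_pos.2 ht0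
  have hst2 : √ (t : ℝ) * √ (t : ℝ) = t := Real.mul_self_sqrt ht0.le
  have hst1 : 1 ≤ √ (t : ℝ) := Real.one_le_sqrt.2 ht1
  obtain ⟨s₁, hs₁⟩ : ∃ s₁ : ℕ, s₁ = ⌊g ^ 2 * (t : ℝ)⌋₊ := ⟨_, rfl⟩
  have hs₁t : s₁ + 1 ≤ t := by
    have h1 : (s₁ : ℝ) ≤ g ^ 2 * t := by rw [hs₁]; exact Nat.floor_le (by positivity)
    have h2 : g ^ 2 * (t : ℝ) ≤ 1 / 4 * t := mul_le_mul_of_nonneg_right (by nlinarith) ht0.le
    have h3 : (s₁ : ℝ) + 1 ≤ t := by linarith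
    exact_mod_cast h3
  obtain ⟨n₁, hn₁⟩ : ∃ n₁ : ℕ, n₁ + (s₁ + 1) = t := ⟨t - (s₁ + 1), by omega⟩
  obtain ⟨e1, e2, e3, e4, e5, e6, e7⟩ := scales hg hg1 hs₁ (by linarith) hn₁
  have hhp := hh_nonneg s₁
  have hn₁t : (n₁ : ℝ) ≤ t := by exact_mod_cast (by omega : n₁ ≤ t)
  have hn₁h : 1 / 2 * (t : ℝ) ≤ n₁ := by
    have h1 : (s₁ : ℝ) ≤ g ^ 2 * t := by rw [hs₁]; exact Nat.floor_le (by positivity)
    have h2 : g ^ 2 * (t : ℝ) ≤ 1 / 4 * t := mul_le_mul_of_nonneg_right (by nlinarith) ht0.le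
    have h3 : (n₁ : ℝ) + (s₁ + 1) = t := by exact_mod_cast hn₁
    linarith
  -- first part
  obtain ⟨nη, hnη⟩ : ∃ nη : ℕ, nη = ⌈θ * (t : ℝ)⌉₊ := ⟨_, rfl⟩
  have hnη1 : θ * (t : ℝ) ≤ nη := by rw [hnη]; exact Nat.le_ceil _
  have hnη2 : (nη : ℝ) ≤ θ * t + 1 := by rw [hnη]; exact (Nat.ceil_lt_add_one (by positivity)).le
  have hEE := EE_bound a r y (s₁ := s₁) (by omega) (t := t) (n₁ := n₁) (M := kk t) (nη := nη) (kk_pos b4) (by omega)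
    hθ.le hθ.le e7 (fun i j hij n hn hnM => by
      apply b1 k a r (hsm.mono (min_le_left _ _)) i j hij n
      · have : (nη : ℝ) ≤ n := by exact_mod_cast hn
        linarith
      · omega)
  rw [EE_zero, ← hF, ← hQ] at hEE
  have hkkt : (kk t : ℝ) ≤ θ / 4 * t := by
    have h1 : β₂ * √ (t : ℝ) ≤ θ / 4 * √ (t : ℝ) := mul_le_mul_of_nonneg_right hβ₂2 hst.le
    have h2 : √ (t : ℝ) ≤ t := by nlinarith
    have h3 : θ / 4 * √ (t : ℝ) ≤ θ / 4 * t := mul_le_mul_of_nonneg_left h2 (by positivity)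
    linarith
  have E1 : Q * (F * hh s₁ ^ 2 * (n₁ * (θ + θ) + nη + 2 * (kk t : ℝ))) ≤ ε / 8 := by
    have h1 : (n₁ : ℝ) * (θ + θ) + nη + 2 * (kk t : ℝ) ≤ 4 * θ * t := by
      have : (n₁ : ℝ) * (θ + θ) ≤ t * (θ + θ) := mul_le_mul_of_nonneg_right hn₁t (by positivity)
      linarith
    calc Q * (F * hh s₁ ^ 2 * (n₁ * (θ + θ) + nη + 2 * (kk t : ℝ))) ≤ Q * (F * (18 / (g ^ 2 * t)) * (4 * θ * t)) := by gcongr
      _ = 72 * Q * F * θ / g ^ 2 := by field_simp; ring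
      _ = ε / 8 := by rw [hθd]; field_simp; ring
  have E2 : Q * (n₁ * (F * (k * (2 * (kk t : ℝ) * hh s₁) * hh s₁ ^ 2))) ≤ ε / 16 := by
    have h1 : (kk t : ℝ) ≤ ε * g ^ 3 / (2880 * Q * X) * √ (t : ℝ) := b3.trans (mul_le_mul_of_nonneg_right hβ₂1 hst.le)
    calc Q * (n₁ * (F * (k * (2 * (kk t : ℝ) * hh s₁) * hh s₁ ^ 2))) = Q * (n₁ * ((F * k) * (2 * (kk t : ℝ) * hh s₁ * hh s₁ ^ 2))) := by ring
      _ ≤ Q * (t * (X * (2 * (ε * g ^ 3 / (2880 * Q * X) * √ (t : ℝ)) * (5 / (g * √ (t : ℝ))) * (18 / (g ^ 2 * t))))) := by gcongr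
      _ = ε / 16 := by field_simp; ring
  have E3 : Q * (n₁ * (F * hh s₁ ^ 4)) ≤ ε / 16 := by
    have h1 : hh s₁ ^ 4 ≤ (18 / (g ^ 2 * t)) ^ 2 := by
      rw [show hh s₁ ^ 4 = (hh s₁ ^ 2) ^ 2 by ring]
      gcongr
    calc Q * (n₁ * (F * hh s₁ ^ 4)) ≤ Q * (t * (F * (18 / (g ^ 2 * t)) ^ 2)) := by gcongr
      _ = 324 * Q * F / (g ^ 4 * t) := by field_simp; ring
      _ ≤ ε / 16 := by
        rw [div_le_div_iff₀ (by positivity) (by norm_num)]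
        linarith
  -- second part
  obtain ⟨n, hn⟩ : ∃ n : ℕ, n = ⌈β * √ (t : ℝ)⌉₊ := ⟨_, rfl⟩
  have hn1 : β * √ (t : ℝ) ≤ n := by rw [hn]; exact Nat.le_ceil _
  have hn2 : (n : ℝ) ≤ 2 * (β * √ (t : ℝ)) := by
    have : (n : ℝ) ≤ β * √ (t : ℝ) + 1 := by rw [hn]; exact (Nat.ceil_lt_add_one (by positivity)).le
    linarith
  obtain ⟨Gp, hGp⟩ : ∃ Gp : ℕ, Gp = ⌈K * √ ((s₁ + 1 : ℕ) : ℝ)⌉₊ + 2 * n := ⟨_, rfl⟩
  have hGp1 : K * √ ((s₁ + 1 : ℕ) : ℝ) + 2 * n ≤ Gp := by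
    rw [hGp]
    have := Nat.le_ceil (K * √ ((s₁ + 1 : ℕ) : ℝ))
    push_cast at this ⊢
    linarith
  have hGp2 : (Gp : ℝ) ≤ K * (3 / 2 * (g * √ (t : ℝ))) + 1 + 4 * (β * √ (t : ℝ)) := by
    have h1 : ((⌈K * √ ((s₁ + 1 : ℕ) : ℝ)⌉₊ : ℕ) : ℝ) ≤ K * √ ((s₁ + 1 : ℕ) : ℝ) + 1 :=
      (Nat.ceil_lt_add_one (by positivity)).le
    have h2 : K * √ ((s₁ + 1 : ℕ) : ℝ) ≤ K * (3 / 2 * (g * √ (t : ℝ))) := mul_le_mul_of_nonneg_left e4 hK0.le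
    rw [hGp]
    push_cast at h1 h2 ⊢
    linarith
  have hend := end_cmp a r y (t := t) (n₁ := n₁) (s₁ := s₁) (s₂ := s₁ + 1) (n := n) (Gp := Gp) (by omega) (by omega)
    hn₁ e6 ha hy (K := K) (κ := ε / (8 * X)) (β := β) hK0 hGp1 hn1 (fun i j hij =>
      b2 k a r (hsm.mono (min_le_right _ _)) i j hij n₁ hn₁h (by omega))
  rw [← hF] at hend
  have E4 : F * (k * (2 * n * hh s₁)) ≤ ε / 8 := by
    calc F * (k * (2 * n * hh s₁)) = (F * k) * (2 * n * hh s₁) := by ring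
      _ ≤ X * (2 * (2 * (β * √ (t : ℝ))) * (5 / (g * √ (t : ℝ)))) := by gcongr
      _ = 20 * X * β / g := by field_simp; ring
      _ ≤ g * ε / 8 / g := by gcongr
      _ = ε / 8 := by field_simp
  have hKε : X * (64 / K ^ 2) ≤ ε := by
    rw [div_le_iff₀ hε] at hK2
    rw [← mul_div_assoc, div_le_iff₀ (by positivity)]
    linarith
  have E5 : F * (k * (1 / K ^ 2)) ≤ ε / 8 := by
    have h1 : F * (k * (1 / K ^ 2)) ≤ X * (1 / K ^ 2) := by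
      rw [← mul_assoc]; gcongr
    have h2 : X * (1 / K ^ 2) = X * (64 / K ^ 2) / 64 := by ring
    linarith
  have E6 : (F + 1) * (k * (k * (ε / (8 * X)))) ≤ ε / 8 := by
    calc (F + 1) * (k * (k * (ε / (8 * X)))) = ((F + 1) * (k * k)) * (ε / (8 * X)) := by ring
      _ ≤ X * (ε / (8 * X)) := by gcongr
      _ = ε / 8 := by field_simp
  have E7 : (F + 1) * (k * (k * ((Gp + 2) * (1 / √ (n₁ : ℝ))))) ≤ ε / 16 := by
    calc (F + 1) * (k * (k * ((Gp + 2) * (1 / √ (n₁ : ℝ))))) = ((F + 1) * (k * k)) * ((Gp + 2) * (1 / √ (n₁ : ℝ))) := by ring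
      _ ≤ X * ((K * (3 / 2 * (g * √ (t : ℝ))) + 1 + 4 * (β * √ (t : ℝ)) + 2) * (3 / 2 / √ (t : ℝ))) := by gcongr
      _ = 9 / 4 * (X * K * g) + 6 * X * β + 9 / 2 * X / √ (t : ℝ) := by field_simp; ring
      _ ≤ 9 / 4 * (ε / 256) + 3 / 10 * (g * ε / 8) + ε / 64 := by
        have h1 : 9 / 2 * X / √ (t : ℝ) ≤ ε / 64 := by
          rw [div_le_div_iff₀ hst (by norm_num)]; linarith
        linarith
      _ ≤ ε / 16 := by nlinarith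
  have E8 : (F + 1) * (k * (2 * Real.exp (-(K ^ 2 / 2)))) ≤ ε / 8 := by
    have h1 : Real.exp (-(K ^ 2 / 2)) ≤ 2 / K ^ 2 := by
      rw [Real.exp_neg, inv_eq_one_div, div_le_div_iff₀ (Real.exp_pos _) (by positivity)]
      have := Real.add_one_le_exp (K ^ 2 / 2)
      linarith
    calc (F + 1) * (k * (2 * Real.exp (-(K ^ 2 / 2)))) = ((F + 1) * k) * (2 * Real.exp (-(K ^ 2 / 2))) := by ring
      _ ≤ X * (2 * (2 / K ^ 2)) := by gcongr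
      _ = X * (64 / K ^ 2) / 16 := by ring
      _ ≤ ε / 8 := by linarith
  have h1 := (abs_le.1 hEE)
  have h2 := (abs_le.1 hend)
  rw [mul_add, mul_add] at h1
  rw [mul_add, mul_add] at h2
  rw [abs_le]
  constructor
  · linarith [h1.1, h2.1]
  · linarith [h1.2, h2.2]

end Pool.Agent.J4H26.AF
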