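import Mathlib
import Pool.Agent.J4H26.AF.Main

set_option autoImplicit false

/-! Coalescing random walks; closeness of the exponents forces merging. -/

namespace Pool.Agent.J4H26.AF

open Finset Filter Topology
open Pool.Agent.J4H39 (T od Per ex pb ex_zero kk kk_pos pb_nonneg stP rn Di yy pb_mono pb_per per_rn rn_Di rel_yy pb_affine
  pow3_odd pb_le_one)
open Pool.Agent.J4H26.CC

variable {k : ℕ}

/-- The possible moves of coalescing walks at the positions `z`: walks at the same position move together. -/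
def moves (z : Fin k → ℤ) : Finset (Fin k → Fin 2) := univ.filter fun p => ∀ i j, z i = z j → p i = p j

/-- The probability that coalescing walks started at `z` are at most `y` after `s` steps. -/
noncomputable def coal (y : Fin k → ℤ) : ℕ → (Fin k → ℤ) → ℝ
  | 0, z => if ∀ i, z i ≤ y i then 1 else 0
  | s + 1, z => (∑ p ∈ moves z, coal y s (fun i => z i + (p i : ℕ))) / #(moves z)

theorem moves_pos (z : Fin k → ℤ) : 0 < #(moves z) := by
  apply card_pos.2
  exact ⟨fun _ => 0, by unfold moves; simp⟩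

/-- flip a class -/
def flipc (z : Fin k → ℤ) (i : Fin k) (p : Fin k → Fin 2) : Fin k → Fin 2 := fun j => if z j = z i then 1 - p j else p j

theorem flipc_flipc (z : Fin k → ℤ) (i : Fin k) (p : Fin k → Fin 2) : flipc z i (flipc z i p) = p := by
  funext j
  unfold flipc
  split_ifs with h
  · generalize p j = q
    revert q; decide
  · rfl

theorem flipc_mem {z : Fin k → ℤ} (i : Fin k) {p : Fin k → Fin 2} (hp : p ∈ moves z) : flipc z i p ∈ moves z := by
  unfold moves at hp ⊢
  rw [mem_filter] at hp ⊢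
  refine ⟨mem_univ _, fun j l hjl => ?_⟩
  unfold flipc
  rw [hjl, hp.2 j l hjl]

theorem sg_fin (q : Fin 2) : sg (((1 - q : Fin 2) : Fin 2) : ℕ) = -sg (q : ℕ) := by
  fin_cases q <;> simp [sg] <;> norm_num

theorem chi_zero {z : Fin k → ℤ} {S : Finset (Fin k)} {i : Fin k} (hi : i ∈ S) (hS : ∀ j ∈ S, z j = z i → j = i) :
    ∑ p ∈ moves z, ∏ j ∈ S, sg (p j : ℕ) = 0 := by
  have h1 : ∑ p ∈ moves z, ∏ j ∈ S, sg (p j : ℕ) = ∑ p ∈ moves z, ∏ j ∈ S, sg (flipc z i p j : ℕ) := by
    apply sum_bij' (fun p _ => flipc z i p) (fun p _ => flipc z i p)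
    · intro p hp; exact flipc_mem i hp
    · intro p hp; exact flipc_mem i hp
    · intro p _; exact flipc_flipc z i p
    · intro p _; exact flipc_flipc z i p
    · intro p _; rw [flipc_flipc]
  have h2 : ∀ p ∈ moves z, ∏ j ∈ S, sg (flipc z i p j : ℕ) = -∏ j ∈ S, sg (p j : ℕ) := by
    intro p _
    rw [← mul_prod_erase S _ hi, ← mul_prod_erase S _ hi]
    have e1 : sg (flipc z i p i : ℕ) = -sg (p i : ℕ) := by
      unfold flipc
      rw [if_pos rfl]
      exact sg_fin _
    have e2 : ∏ j ∈ S.erase i, sg (flipc z i p j : ℕ) = ∏ j ∈ S.erase i, sg (p j : ℕ) := by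
      apply prod_congr rfl
      intro j hj
      rw [mem_erase] at hj
      unfold flipc
      rw [if_neg (fun h => hj.1 (hS j hj.2 h))]
    rw [e1, e2]; ring
  rw [sum_congr rfl h2, sum_neg_distrib] at h1
  linarith

theorem Phi_moves (y : Fin k → ℤ) (s : ℕ) (z : Fin k → ℤ) :
    (∑ p ∈ moves z, Phi y s (fun i => z i + (p i : ℕ))) / #(moves z) = Phi y (s + 1) z := by
  have hpos : (0 : ℝ) < #(moves z) := by exact_mod_cast moves_pos z
  rw [div_eq_iff hpos.ne']
  have h1 : ∀ p ∈ moves z, Phi y s (fun i => z i + (p i : ℕ)) = ∑ S : Finset (Fin k), (∏ i ∈ S, sg (p i : ℕ)) * dS y S s z := by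
    intro p _
    exact Phi_expand y s z (fun i => (p i : ℕ)) (fun i => by have := (p i).isLt; omega)
  rw [sum_congr rfl h1, sum_comm]
  have h2 : ∀ S ∈ (univ : Finset (Finset (Fin k))), S ≠ ∅ → ∑ p ∈ moves z, (∏ i ∈ S, sg (p i : ℕ)) * dS y S s z = 0 := by
    intro S _ hS
    rw [← sum_mul]
    obtain ⟨i, hi⟩ := nonempty_iff_ne_empty.2 hS
    by_cases h3 : ∀ j ∈ S, z j = z i → j = i
    · rw [chi_zero hi h3, zero_mul]
    · push Not at h3
      obtain ⟨j, hj, hz, hne⟩ := h3
      rw [dS_merged y s hne hj hi hz, mul_zero]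
  rw [sum_eq_single_of_mem ∅ (mem_univ _) h2]
  simp only [prod_empty, one_mul]
  rw [sum_const, nsmul_eq_mul, dS_empty, mul_comm]

/-- the determinant formula for coalescing walks -/
theorem coal_eq (y : Fin k → ℤ) (hy : Monotone y) (s : ℕ) : ∀ z : Fin k → ℤ, Monotone z → coal y s z = Phi y s z := by
  induction s with
  | zero =>
    intro z hz
    show (if ∀ i, z i ≤ y i then (1 : ℝ) else 0) = _
    have h1 := det_sorted (z := fun i => (z i : ℝ)) (Y := fun j => (y j : ℝ))
      (fun a b hab => by simp only; exact_mod_cast hz hab) (fun a b hab => by simp only; exact_mod_cast hy hab)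
    have e1 : (∀ i, (z i : ℝ) ≤ (y i : ℝ)) ↔ ∀ i, z i ≤ y i := by
      apply forall_congr'; intro i; exact Int.cast_le
    simp only [e1] at h1
    rw [← h1]
    unfold Phi Rw
    congr 1
    funext i j
    rw [Fb_zero]
    have e2 : (0 ≤ y j - z i) ↔ ((z i : ℝ) ≤ (y j : ℝ)) := by
      rw [Int.cast_le]; omega
    simp only [e2]
  | succ s ih =>
    intro z hz
    show (∑ p ∈ moves z, coal y s (fun i => z i + (p i : ℕ))) / #(moves z) = _
    rw [← Phi_moves]
    congr 1
    apply sum_congr rfl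
    intro p hp
    apply ih
    intro i j hij
    unfold moves at hp
    rw [mem_filter] at hp
    have h1 := hz hij
    simp only
    rcases h1.lt_or_eq with h2 | h2
    · have h3 := (p i).isLt
      omega
    · rw [h2, hp.2 i j h2]

/-- closeness of the exponents forces merging -/
theorem close_merged {ε : ℝ} (hε : 0 < ε) : ∃ β : ℝ, 0 < β ∧ ∃ c : ℝ, 0 < c ∧ ∀ᶠ t : ℕ in atTop,
    ∀ (k : ℕ) (a : Fin k → ℕ) (r : Fin k → ℤ), Small a r c t → ∀ i j : Fin k, ∃ Q : ℤ → Prop, Per t Q ∧ pb t Q ≤ ε ∧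
      ∀ m, |(AA a r t m i : ℝ) - AA a r t m j| ≤ β * √ (t : ℝ) → T^[t] (Lf a r i m) ≠ T^[t] (Lf a r j m) → Q m := by
  obtain ⟨β, hβ, c, hc, h⟩ := low_small (η := 1) (κ := ε) one_pos hε
  refine ⟨β, hβ, c / 3, by positivity, ?_⟩
  filter_upwards [h, (tendsto_natCast_atTop_atTop (R := ℝ)).eventually_ge_atTop (3 / c)] with t b1 b2
  rw [div_le_iff₀ hc] at b2
  have ht0 : (0 : ℝ) ≤ t := by positivity
  have half : ∀ (k : ℕ) (a : Fin k → ℕ) (r : Fin k → ℤ), Small a r (c / 3) t → ∀ i j : Fin k, a i ≤ a j →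
      ∃ Q : ℤ → Prop, Per t Q ∧ pb t Q ≤ ε ∧
      ∀ m, |(AA a r t m i : ℝ) - AA a r t m j| ≤ β * √ (t : ℝ) → T^[t] (Lf a r i m) ≠ T^[t] (Lf a r j m) → Q m := by
    intro k a r hsm i j hij
    set D := a j - a i with hD
    set R := RR a r i j with hR
    obtain ⟨Q, hQd⟩ : ∃ Q : ℤ → Prop, Q = fun x => rn stP t ((D : ℤ), R) x ≠ (0, 0) ∧
      |((rn stP t ((D : ℤ), R) x).1 : ℝ)| ≤ β * √ (t : ℝ) := ⟨_, rfl⟩
    have hQper : Per t Q := by
      intro x u
      rw [hQd]
      simp only
      rw [per_rn stP _ (le_refl t) x u]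
    refine ⟨fun m => Q (3 ^ a i * m + r i), ?_, ?_, ?_⟩
    · intro m u
      simp only
      rw [show (3 : ℤ) ^ a i * (m + 2 ^ t * u) + r i = (3 ^ a i * m + r i) + 2 ^ t * (3 ^ a i * u) by ring]
      exact hQper _ _
    · rw [pb_affine hQper (pow3_odd (a i)) (r i), hQd, pb_low]
      apply b1 t (by linarith) D R
      · have : (D : ℝ) ≤ a j := by exact_mod_cast (by omega : D ≤ a j)
        have := (hsm j).1
        nlinarith
      · have hRb := RR_bd a r (c := c / 3) (t := t) (by linarith) (hsm j).1 (hsm i).2 (hsm j).2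
        have : ((|RR a r i j| : ℤ) : ℝ) ≤ ((4 ^ ⌊3 * (c / 3) * (t : ℝ)⌋₊ : ℤ) : ℝ) := by exact_mod_cast hRb
        push_cast at this
        rw [show 3 * (c / 3) = c by ring] at this
        exact this
    · intro m h2 h3
      rw [hQd]
      simp only
      constructor
      · intro h0
        apply h3
        rw [Lf_yy a r hij]
        exact (Pool.Agent.J4H39.merge_of_rn (rel_yy D R _) h0).1
      · rw [rn_Di]
        have e1 : (Di D R t (3 ^ a i * m + r i) : ℝ) = AA a r t m j - AA a r t m i := by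
          have : Di D R t (3 ^ a i * m + r i) = AA a r t m j - AA a r t m i := by
            unfold AA
            rw [Lf_yy a r hij]
            unfold Di
            have e2 : Lf a r i m = 3 ^ a i * m + r i := rfl
            rw [← hD, ← hR, e2]
            have : (D : ℤ) = a j - a i := by rw [hD]; push_cast [hij]; ring
            omega
          rw [this]; push_cast; ring
        rw [e1, abs_sub_comm]
        exact h2
  intro k a r hsm i j
  rcases le_total (a i) (a j) with hij | hij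
  · exact half k a r hsm i j hij
  · obtain ⟨Q, h1, h2, h3⟩ := half k a r hsm j i hij
    exact ⟨Q, h1, h2, fun m h4 h5 => h3 m (by rwa [abs_sub_comm]) h5.symm⟩

end Pool.Agent.J4H26.AF
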